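import Pool.Agent.Helper17.Codeg.Glue

/-!
Numerics and the realisation of all small densities.
-/

set_option autoImplicit false
open Finset

namespace Pool.Agent.Helper17.Codeg

lemma prod_ge {q : ℕ → ℕ} (hq : ∀ l, 200 ≤ q l) (l : ℕ) : 4 ^ l ≤ ∏ i ∈ range l, q i := by
  induction l with
  | zero => simp
  | succ l ih =>
    rw [pow_succ, Finset.prod_range_succ]
    exact Nat.mul_le_mul ih (le_trans (by norm_num) (hq l))

theorem tower_RC {r : ℕ} (hr : 3 ≤ r) {L0 : Lev} {q : ℕ → ℕ} [∀ l, NeZero (q l)] {x0 : ℝ}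
    {x : ℕ → ℝ} (hP : L0.P = L0.s.Sp) (hfull : Full r L0.s)
    (hd : TowerData (Fintype.card L0.G) x0 q x) :
    RC r ((1 - x0) / Fintype.card L0.G) := by
  have hx0 : x0 ≤ 1 / 200 := by rw [← hd.x_zero]; exact hd.le 0
  have hx00 : 0 ≤ x0 := by rw [← hd.x_zero]; exact hd.nonneg 0
  have hm0n : 0 < Fintype.card L0.G := Fintype.card_pos
  have hm0 : (1 : ℝ) ≤ Fintype.card L0.G := by exact_mod_cast hm0n
  have hm0' : (0 : ℝ) < Fintype.card L0.G := by linarith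
  have hexl : ∀ ε : ℝ, 0 < ε → ∃ l : ℕ, 1 / (∏ i ∈ range l, (q i : ℝ)) ≤ ε / 2 := by
    intro ε hε
    obtain ⟨l, hl⟩ := pow_unbounded_of_one_lt (1 / (ε / 2)) (by norm_num : (1 : ℝ) < 4)
    refine ⟨l, ?_⟩
    have h1 : (4 : ℝ) ^ l ≤ ∏ i ∈ range l, (q i : ℝ) := by
      exact_mod_cast prod_ge hd.q_ge l
    have h2 : (0 : ℝ) < 4 ^ l := by positivity
    rw [div_le_iff₀ (lt_of_lt_of_le h2 h1)]
    rw [div_lt_iff₀ (by linarith)] at hl
    nlinarith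
  have hKpos : ∀ l, (0 : ℝ) < ∏ i ∈ range l, (q i : ℝ) := by
    intro l
    have h1 : (4 : ℝ) ^ l ≤ ∏ i ∈ range l, (q i : ℝ) := by
      exact_mod_cast prod_ge hd.q_ge l
    have h2 : (0 : ℝ) < 4 ^ l := by positivity
    linarith
  refine ⟨TowC (tower r L0 q), towC_hered _, ?_, ?_⟩
  · intro ε hε
    obtain ⟨l, hl⟩ := hexl ε hε
    obtain ⟨K, hK⟩ : ∃ K : ℝ, K = ∏ i ∈ range l, (q i : ℝ) := ⟨_, rfl⟩
    have hK0 : 0 < K := by rw [hK]; exact hKpos l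
    rw [← hK] at hl
    obtain ⟨m, hm⟩ : ∃ m : ℝ, m = (Fintype.card (tower r L0 q l).G : ℝ) := ⟨_, rfl⟩
    have hmK : m = Fintype.card L0.G * K := by
      rw [hm, hK, tower_card]; push_cast; rfl
    obtain ⟨N, hN⟩ := exists_nat_gt ((m + r) / (ε / 2))
    refine ⟨N, fun n hn => ?_⟩
    have hn' : m + r < n * (ε / 2) := by
      rw [div_lt_iff₀ (by linarith)] at hN
      have : (N : ℝ) ≤ n := by exact_mod_cast hn
      nlinarith
    obtain ⟨G, hG1, hG2, hG3⟩ := glue_lower hr (tower r L0 q l).s (tower r L0 q l).P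
      ((1 - x0) * K + x l) (fun M => by rw [tower_count hr hP hfull hd l M, hK]) n
    refine ⟨G, hG1, tower_class G l hG2, fun S hS => ?_⟩
    have h1 := hG3 S hS
    rw [← hm] at h1
    have hmpos : 0 < m := by rw [hmK]; positivity
    have h2 : (1 - x0) / (Fintype.card L0.G : ℝ) - ε / 2 ≤ ((1 - x0) * K + x l - 1) / m := by
      rw [le_div_iff₀ hmpos, hmK]
      have h3 : ((1 - x0) / (Fintype.card L0.G : ℝ) - ε / 2) * ((Fintype.card L0.G : ℝ) * K)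
          = (1 - x0) * K - (Fintype.card L0.G : ℝ) * (K * (ε / 2)) := by
        field_simp
      rw [h3]
      have h4 : 1 ≤ K * (ε / 2) := by
        rw [div_le_iff₀ hK0] at hl
        linarith
      have h5 := hd.nonneg l
      nlinarith
    have hn0 : (0 : ℝ) ≤ n := Nat.cast_nonneg _
    have h3 := mul_le_mul_of_nonneg_right h2 hn0
    linarith
  · intro ε hε
    obtain ⟨l, hl⟩ := hexl ε hε
    have hxl : x l / (∏ i ∈ range l, (q i : ℝ)) ≤ ε / 2 := by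
      refine le_trans ?_ hl
      apply div_le_div_of_nonneg_right _ (hKpos l).le
      linarith [hd.le l]
    obtain ⟨N, hN⟩ := glue_upper hr (tower_good hr hP hfull hd l) (hd.nonneg l) (hKpos l)
      hm0 (by linarith) ε hε hxl
    exact ⟨N, fun n hn G _ hG => hN n hn G (hG l)⟩

/-- the sequence of parameters -/
noncomputable def xs (x0 : ℝ) : ℕ → ℝ
  | 0 => x0
  | l + 1 => (⌈(1 + 1 / 500 / 2 ^ (l + 1)) / xs x0 l⌉₊ : ℝ) * xs x0 l - 1

noncomputable def qs (x0 : ℝ) (l : ℕ) : ℕ := ⌈(1 + 1 / 500 / 2 ^ (l + 1)) / xs x0 l⌉₊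

lemma xs_bounds {x0 : ℝ} (h1 : 1 / 500 ≤ x0) (h2 : x0 ≤ 3 / 1000) (l : ℕ) :
    1 / 500 / 2 ^ l ≤ xs x0 l ∧ xs x0 l ≤ 3 / 1000 + 1 / 500 * (1 - 1 / 2 ^ l) := by
  induction l with
  | zero => simp only [xs]; norm_num; constructor <;> linarith
  | succ l ih =>
    obtain ⟨ih1, ih2⟩ := ih
    have hpow : (0 : ℝ) < 2 ^ l := by positivity
    have hx : 0 < xs x0 l := lt_of_lt_of_le (by positivity) ih1
    set lo : ℝ := 1 / 500 / 2 ^ (l + 1) with hlo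
    have hlo0 : 0 < lo := by positivity
    have hc1 : (1 + lo) / xs x0 l ≤ ⌈(1 + lo) / xs x0 l⌉₊ := Nat.le_ceil _
    have hc2 : (⌈(1 + lo) / xs x0 l⌉₊ : ℝ) < (1 + lo) / xs x0 l + 1 :=
      Nat.ceil_lt_add_one (by positivity)
    rw [div_le_iff₀ hx] at hc1
    have hc3 : (⌈(1 + lo) / xs x0 l⌉₊ : ℝ) * xs x0 l < 1 + lo + xs x0 l := by
      have := mul_lt_mul_of_pos_right hc2 hx
      rwa [add_mul, div_mul_cancel₀ _ hx.ne', one_mul] at this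
    have hxs : xs x0 (l + 1) = (⌈(1 + lo) / xs x0 l⌉₊ : ℝ) * xs x0 l - 1 := rfl
    rw [hxs]
    constructor
    · linarith
    · have : (1 : ℝ) / 500 * (1 - 1 / 2 ^ (l + 1)) = 1 / 500 * (1 - 1 / 2 ^ l) + lo := by
        rw [hlo, pow_succ]; field_simp; ring
      rw [this]
      linarith

lemma towerData {x0 : ℝ} (h1 : 1 / 500 ≤ x0) (h2 : x0 ≤ 3 / 1000) {m0 : ℕ}
    (hm0 : 10 ^ 9 ≤ m0) : TowerData m0 x0 (qs x0) (xs x0) := by
  have hb := xs_bounds h1 h2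
  have hpos : ∀ l, 0 < xs x0 l := fun l => lt_of_lt_of_le (by positivity) (hb l).1
  have hle : ∀ l, xs x0 l ≤ 1 / 200 := by
    intro l
    have h3 := (hb l).2
    have h4 : (0 : ℝ) < 1 / 2 ^ l := by positivity
    linarith
  have hq200 : ∀ l, 200 ≤ qs x0 l := by
    intro l
    have hc1 : (1 + 1 / 500 / 2 ^ (l + 1)) / xs x0 l ≤ (qs x0 l : ℝ) := Nat.le_ceil _
    rw [div_le_iff₀ (hpos l)] at hc1
    have h3 : (0 : ℝ) < 1 / 500 / 2 ^ (l + 1) := by positivity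
    have h4 := hle l
    have h5 : (200 : ℝ) ≤ qs x0 l := by
      by_contra hlt
      push Not at hlt
      have := hpos l
      nlinarith
    exact_mod_cast h5
  refine ⟨rfl, hq200, ?_, fun l => (hpos l).le, hle, ?_⟩
  · intro l
    have : xs x0 (l + 1) = (qs x0 l : ℝ) * xs x0 l - 1 := rfl
    rw [this]; ring
  · intro l
    have hc2 : (qs x0 l : ℝ) < (1 + 1 / 500 / 2 ^ (l + 1)) / xs x0 l + 1 :=
      Nat.ceil_lt_add_one (by have := hpos l; positivity)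
    have hpow : (1 : ℝ) ≤ 2 ^ l := one_le_pow₀ (by norm_num)
    have h3 : (1 + 1 / 500 / 2 ^ (l + 1)) / xs x0 l ≤ 501 * 2 ^ l := by
      rw [div_le_iff₀ (hpos l)]
      have h4 := (hb l).1
      have h5 : (501 : ℝ) * 2 ^ l * (1 / 500 / 2 ^ l) = 501 / 500 := by field_simp
      have h6 : (1 : ℝ) / 500 / 2 ^ (l + 1) ≤ 1 / 1000 := by
        rw [pow_succ, div_le_iff₀ (by positivity)]
        linarith
      have h7 : (501 : ℝ) * 2 ^ l * (1 / 500 / 2 ^ l) ≤ 501 * 2 ^ l * xs x0 l :=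
        mul_le_mul_of_nonneg_left h4 (by positivity)
      linarith
    have h4 : (qs x0 l : ℝ) ≤ 1000 * 2 ^ l := by linarith
    have h5 : qs x0 l ≤ 1000 * 2 ^ l := by exact_mod_cast h4
    have h6 := prod_ge hq200 l
    calc 1000 * qs x0 l ^ 2 ≤ 1000 * (1000 * 2 ^ l) ^ 2 := by gcongr
      _ = 10 ^ 9 * 4 ^ l := by
          rw [mul_pow, ← pow_mul, mul_comm l 2, pow_mul]; norm_num; ring
      _ ≤ m0 * ∏ i ∈ range l, qs x0 i := Nat.mul_le_mul hm0 h6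

/-- choice of the base parameters -/
lemma base_params {p : ℕ} (hp : 2 ≤ p) {t : ℝ} (ht0 : 0 < t)
    (ht : t * (10 ^ 12 * (p : ℝ) ^ 3) ≤ 1) :
    ∃ k b : ℕ, 1 ≤ b ∧ 1000 * b ^ 2 ≤ p ^ k ∧ 10 ^ 9 ≤ p ^ k * b ∧
      1 / 500 ≤ 1 - t * (((p ^ k * b : ℕ)) : ℝ) ∧ 1 - t * (((p ^ k * b : ℕ)) : ℝ) ≤ 3 / 1000 := by
  classical
  have hpR : (2 : ℝ) ≤ p := by exact_mod_cast hp
  have hp3 : (8 : ℝ) ≤ (p : ℝ) ^ 3 := by
    calc (8 : ℝ) = 2 ^ 3 := by norm_num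
      _ ≤ (p : ℝ) ^ 3 := by gcongr
  have htsmall : t * 10 ^ 12 ≤ 1 := by nlinarith
  have hex : ∃ k : ℕ, 1000 ≤ ((p : ℝ) ^ k) ^ 3 * t ^ 2 := by
    obtain ⟨k, hk⟩ := pow_unbounded_of_one_lt (1000 / t ^ 2) (by linarith : (1 : ℝ) < p)
    refine ⟨k, ?_⟩
    rw [div_lt_iff₀ (by positivity)] at hk
    have h1 : (1 : ℝ) ≤ (p : ℝ) ^ k := one_le_pow₀ (by linarith)
    have h2 : (p : ℝ) ^ k ≤ ((p : ℝ) ^ k) ^ 3 := le_self_pow₀ h1 (by norm_num)
    have h3 : (p : ℝ) ^ k * t ^ 2 ≤ ((p : ℝ) ^ k) ^ 3 * t ^ 2 := by gcongr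
    linarith
  obtain ⟨k, hk1, hk2⟩ : ∃ k : ℕ, 1000 ≤ ((p : ℝ) ^ k) ^ 3 * t ^ 2 ∧
      ((p : ℝ) ^ k) ^ 3 * t ^ 2 ≤ 1000 * (p : ℝ) ^ 3 := by
    refine ⟨Nat.find hex, Nat.find_spec hex, ?_⟩
    rcases Nat.eq_zero_or_pos (Nat.find hex) with h | h
    · rw [h]
      simp only [pow_zero, one_pow, one_mul]
      nlinarith
    · have h1 := Nat.find_min hex (m := Nat.find hex - 1) (by omega)
      push Not at h1
      have h2 : Nat.find hex = (Nat.find hex - 1) + 1 := by omega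
      rw [h2, pow_succ (p : ℝ) (Nat.find hex - 1), mul_pow]
      have h3 : (((p : ℝ) ^ (Nat.find hex - 1)) ^ 3 * (p : ℝ) ^ 3) * t ^ 2
          = (((p : ℝ) ^ (Nat.find hex - 1)) ^ 3 * t ^ 2) * (p : ℝ) ^ 3 := by ring
      rw [h3]
      exact mul_le_mul_of_nonneg_right h1.le (by positivity)
  obtain ⟨Q, hQ⟩ : ∃ Q : ℝ, Q = (p : ℝ) ^ k := ⟨_, rfl⟩
  rw [← hQ] at hk1 hk2
  have hQ0 : 0 < Q := by rw [hQ]; positivity
  have htQ0 : 0 < t * Q := by positivity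
  have htQ : t * Q ≤ 1 / 1000 := by
    have h1 : (t * Q) ^ 3 ≤ (1 / 1000) ^ 3 := by
      have h2 : (t * Q) ^ 3 = (Q ^ 3 * t ^ 2) * t := by ring
      rw [h2]
      have h3 : (Q ^ 3 * t ^ 2) * t ≤ (1000 * (p : ℝ) ^ 3) * t :=
        mul_le_mul_of_nonneg_right hk2 ht0.le
      have h4 : (1000 * (p : ℝ) ^ 3) * t * 10 ^ 9 ≤ 1 := by
        calc (1000 * (p : ℝ) ^ 3) * t * 10 ^ 9 = t * (10 ^ 12 * (p : ℝ) ^ 3) := by ring
          _ ≤ 1 := ht
      have h5 : ((1 : ℝ) / 1000) ^ 3 = 1 / 10 ^ 9 := by norm_num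
      rw [h5, le_div_iff₀ (by norm_num)]
      linarith
    exact le_of_pow_le_pow_left₀ (by norm_num) (by norm_num) h1
  obtain ⟨b, hb⟩ : ∃ b : ℕ, b = ⌈(997 / 1000) / (t * Q)⌉₊ := ⟨_, rfl⟩
  have hb1 : (997 / 1000) / (t * Q) ≤ (b : ℝ) := by rw [hb]; exact Nat.le_ceil _
  have hb2 : (b : ℝ) < (997 / 1000) / (t * Q) + 1 := by
    rw [hb]; exact Nat.ceil_lt_add_one (by positivity)
  rw [div_le_iff₀ htQ0] at hb1
  have hb3 : (b : ℝ) * (t * Q) < 997 / 1000 + t * Q := by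
    have := mul_lt_mul_of_pos_right hb2 htQ0
    rwa [add_mul, div_mul_cancel₀ _ htQ0.ne', one_mul] at this
  have hcast : (((p ^ k * b : ℕ)) : ℝ) = Q * b := by push_cast; rw [hQ]
  have hbpos : 1 ≤ b := by
    by_contra hlt
    have h0 : b = 0 := by omega
    rw [h0] at hb1
    simp at hb1
    linarith
  refine ⟨k, b, hbpos, ?_, ?_, ?_, ?_⟩
  · have h1 : (b : ℝ) * (t * Q) ≤ 1 := by linarith
    have hb0 : (0 : ℝ) ≤ b := Nat.cast_nonneg _
    have h2 : ((b : ℝ) * (t * Q)) ^ 2 ≤ 1 := pow_le_one₀ (by positivity) h1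
    have h3 : (1000 * (b : ℝ) ^ 2) * (t * Q) ^ 2 ≤ Q * (t * Q) ^ 2 := by
      have h4 : (1000 * (b : ℝ) ^ 2) * (t * Q) ^ 2 = 1000 * ((b : ℝ) * (t * Q)) ^ 2 := by ring
      have h5 : Q * (t * Q) ^ 2 = Q ^ 3 * t ^ 2 := by ring
      rw [h4, h5]
      linarith
    have h4 : 1000 * (b : ℝ) ^ 2 ≤ Q := le_of_mul_le_mul_right h3 (by positivity)
    rw [hQ] at h4
    exact_mod_cast h4
  · have h1 : (997 / 1000 : ℝ) ≤ t * (Q * b) := by
      calc (997 / 1000 : ℝ) ≤ (b : ℝ) * (t * Q) := hb1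
        _ = t * (Q * b) := by ring
    have h2 : (10 ^ 9 : ℝ) ≤ Q * b := by
      by_contra hlt
      push Not at hlt
      have : t * (Q * b) < t * 10 ^ 9 := mul_lt_mul_of_pos_left hlt ht0
      linarith
    rw [← hcast] at h2
    exact_mod_cast h2
  · rw [hcast]
    have : t * (Q * b) = (b : ℝ) * (t * Q) := by ring
    rw [this]; linarith
  · rw [hcast]
    have : t * (Q * b) = (b : ℝ) * (t * Q) := by ring
    rw [this]; linarith

theorem small_RC {r : ℕ} (hr : 3 ≤ r) : ∃ t0 : ℝ, 0 < t0 ∧ ∀ t, 0 ≤ t → t < t0 → RC r t := by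
  obtain ⟨p, hp, hpr⟩ := Nat.exists_prime_and_dvd (n := r) (by omega)
  have hp2 : 2 ≤ p := hp.two_le
  have hpR : (0 : ℝ) < p := by exact_mod_cast hp.pos
  refine ⟨1 / (10 ^ 12 * (p : ℝ) ^ 3), by positivity, ?_⟩
  intro t ht0 ht
  rcases ht0.eq_or_lt with h | h
  · rw [← h]; exact RC.zero r
  · rw [lt_div_iff₀ (by positivity)] at ht
    obtain ⟨k, b, hb, hkb, hm0, hx1, hx2⟩ := base_params hp2 h ht.le
    have : NeZero (p ^ k) := ⟨pow_ne_zero _ hp.ne_zero⟩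
    have : NeZero b := ⟨by omega⟩
    obtain ⟨a, ha⟩ := exists_twist hr (zsys (p ^ k)) b (by rw [ZMod.card]; exact hkb)
    have hfull := full_ext hr (full_zsys hr hp hpr) ha
    let L0 : Lev := ⟨ZMod (p ^ k) × ZMod b, inferInstance, inferInstance,
      (zsys (p ^ k)).ext b a, ((zsys (p ^ k)).ext b a).Sp⟩
    have hcard : Fintype.card L0.G = p ^ k * b := by
      show Fintype.card (ZMod (p ^ k) × ZMod b) = _
      rw [Fintype.card_prod, ZMod.card, ZMod.card]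
    have hd : TowerData (Fintype.card L0.G) (1 - t * (((p ^ k * b : ℕ)) : ℝ))
        (qs (1 - t * (((p ^ k * b : ℕ)) : ℝ))) (xs (1 - t * (((p ^ k * b : ℕ)) : ℝ))) := by
      rw [hcard]
      exact towerData hx1 hx2 hm0
    have : ∀ l, NeZero (qs (1 - t * (((p ^ k * b : ℕ)) : ℝ)) l) :=
      fun l => ⟨by have := hd.q_ge l; omega⟩
    have hRC := tower_RC hr (L0 := L0) rfl hfull hd
    rw [hcard] at hRC
    have hne : (((p ^ k * b : ℕ)) : ℝ) ≠ 0 := by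
      have : 0 < p ^ k * b := by omega
      exact_mod_cast this.ne'
    have h2 : (1 - (1 - t * (((p ^ k * b : ℕ)) : ℝ))) / (((p ^ k * b : ℕ)) : ℝ) = t := by
      rw [sub_sub_cancel, mul_div_cancel_right₀ _ hne]
    rwa [h2] at hRC

end Pool.Agent.Helper17.Codeg
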