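import Pool.Agent.Helper17.Codeg.Basic

set_option autoImplicit false
open Finset

namespace Pool.Agent.Helper17.Codeg

/-- a balanced colouring with any finite nonempty set of colours -/
lemma exists_balanced (n : ℕ) (G : Type) [Fintype G] [Nonempty G] [DecidableEq G] :
    ∃ c : Fin n → G, ∀ Z, n / Fintype.card G ≤ (univ.filter (fun v => c v = Z)).card := by
  have hm : 0 < Fintype.card G := Fintype.card_pos
  set m := Fintype.card G with hmdef
  let e : G ≃ Fin m := Fintype.equivFin G
  refine ⟨fun v => e.symm ⟨(v : ℕ) % m, Nat.mod_lt _ hm⟩, fun Z => ?_⟩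
  have hlt : ∀ k : Fin (n / m), (k : ℕ) * m + (e Z : ℕ) < n := by
    intro k
    have h1 : (k : ℕ) + 1 ≤ n / m := k.2
    have h2 : ((k : ℕ) + 1) * m ≤ n / m * m := Nat.mul_le_mul_right m h1
    have h3 : n / m * m ≤ n := Nat.div_mul_le_self n m
    have h4 : (e Z : ℕ) < m := (e Z).2
    nlinarith
  have := Finset.card_le_card_of_injOn (s := (univ : Finset (Fin (n / m))))
    (t := univ.filter (fun v : Fin n => e.symm ⟨(v : ℕ) % m, Nat.mod_lt _ hm⟩ = Z))
    (fun k => (⟨(k : ℕ) * m + (e Z : ℕ), hlt k⟩ : Fin n)) ?_ ?_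
  · simpa using this
  · intro k _
    simp only [coe_filter, mem_univ, true_and, Set.mem_ofPred_eq]
    rw [Equiv.symm_apply_eq]
    ext
    simp only
    rw [Nat.add_comm, Nat.add_mul_mod_self_right]
    exact Nat.mod_eq_of_lt (e Z).2
  · intro a _ b _ hab
    simp only [Fin.mk.injEq] at hab
    have : (a : ℕ) * m = b * m := by omega
    exact Fin.ext (Nat.eq_of_mul_eq_mul_right hm this)

/-- pull-back of a hypergraph along an embedding -/
def pull {k n : ℕ} (g : Fin k ↪ Fin n) (G : Finset (Finset (Fin n))) :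
    Finset (Finset (Fin k)) :=
  univ.filter (fun e => e.map g ∈ G)

lemma mem_pull {k n : ℕ} {g : Fin k ↪ Fin n} {G : Finset (Finset (Fin n))}
    {e : Finset (Fin k)} : e ∈ pull g G ↔ e.map g ∈ G := by
  simp [pull]

lemma exists_class_emb {n : ℕ} {γ : Type} [DecidableEq γ] (c : Fin n → γ) (i : γ) :
    ∃ g : Fin (univ.filter (fun v => c v = i)).card ↪ Fin n,
      ∀ v, (∃ x, g x = v) ↔ c v = i := by
  refine ⟨((univ.filter (fun v => c v = i)).orderEmbOfFin rfl).toEmbedding, fun v => ?_⟩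
  have h := Finset.range_orderEmbOfFin (univ.filter (fun v => c v = i)) rfl
  have h2 : v ∈ Set.range ⇑((univ.filter (fun v => c v = i)).orderEmbOfFin rfl) ↔ c v = i := by
    rw [h]; simp
  exact h2

lemma exists_preimage_finset {k n : ℕ} (g : Fin k ↪ Fin n) (S : Finset (Fin n))
    (h : ∀ v ∈ S, ∃ x, g x = v) : ∃ S' : Finset (Fin k), S'.map g = S := by
  refine ⟨univ.filter (fun x => g x ∈ S), ?_⟩
  ext v
  simp only [mem_map, mem_filter, mem_univ, true_and]
  constructor
  · rintro ⟨x, hx, rfl⟩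
    exact hx
  · intro hv
    obtain ⟨x, rfl⟩ := h v hv
    exact ⟨x, hv, rfl⟩

end Pool.Agent.Helper17.Codeg
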