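import Mathlib

/-!
Codegree densities: basic reformulation.  `RC r d` says that `d` is the codegree density of an
(embedding-)hereditary class of `r`-graphs; `RC.frozen` turns this into the frozen statement.
-/

set_option autoImplicit false
open Finset

namespace Pool.Agent.Helper17.Codeg

/-- set of vertices completing `S` to an edge of `G` -/
def nbr {n : ℕ} (G : Finset (Finset (Fin n))) (S : Finset (Fin n)) : Finset (Fin n) :=
  univ.filter (fun v => v ∉ S ∧ insert v S ∈ G)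

lemma mem_nbr {n : ℕ} {G : Finset (Finset (Fin n))} {S : Finset (Fin n)} {v : Fin n} :
    v ∈ nbr G S ↔ v ∉ S ∧ insert v S ∈ G := by
  simp [nbr]

lemma card_nbr {r n : ℕ} (hr : 1 ≤ r) (G : Finset (Finset (Fin n)))
    (hG : ∀ e ∈ G, e.card = r) (S : Finset (Fin n)) (hS : S.card = r - 1) :
    (G.filter (fun e => S ⊆ e)).card = (nbr G S).card := by
  symm
  apply Finset.card_bij (fun v _ => insert v S)
  · intro v hv
    rw [mem_nbr] at hv
    simp [hv.2]
  · intro v hv w hw h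
    rw [mem_nbr] at hv hw
    have h1 : v ∈ insert w S := h ▸ Finset.mem_insert_self v S
    rcases Finset.mem_insert.1 h1 with h2 | h2
    · exact h2
    · exact absurd h2 hv.1
  · intro e he
    rw [Finset.mem_filter] at he
    have hc := hG e he.1
    have h1 : (e \ S).card = 1 := by
      rw [Finset.card_sdiff_of_subset he.2, hc, hS]; omega
    obtain ⟨v, hv⟩ := Finset.card_eq_one.1 h1
    have hvm : v ∈ e \ S := by rw [hv]; simp
    rw [Finset.mem_sdiff] at hvm
    have h2 : insert v S = e := by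
      apply Finset.eq_of_subset_of_card_le
      · intro x hx
        rcases Finset.mem_insert.1 hx with h | h
        · rw [h]; exact hvm.1
        · exact he.2 h
      · rw [Finset.card_insert_of_notMem hvm.2, hc, hS]; omega
    exact ⟨v, mem_nbr.2 ⟨hvm.2, h2 ▸ he.1⟩, h2⟩

/-- hereditary under (not necessarily induced) embeddings -/
def Hered (C : (n : ℕ) → Finset (Finset (Fin n)) → Prop) : Prop :=
  ∀ (m n : ℕ) (H : Finset (Finset (Fin m))) (G : Finset (Finset (Fin n))) (f : Fin m ↪ Fin n),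
    C n G → (∀ e ∈ H, e.map f ∈ G) → C m H

/-- `d` is the codegree density of a hereditary class of `r`-graphs. -/
def RC (r : ℕ) (d : ℝ) : Prop :=
  ∃ C : (n : ℕ) → Finset (Finset (Fin n)) → Prop, Hered C ∧
    (∀ ε : ℝ, 0 < ε → ∃ N : ℕ, ∀ n : ℕ, N ≤ n → ∃ G : Finset (Finset (Fin n)),
      (∀ e ∈ G, e.card = r) ∧ C n G ∧
        ∀ S : Finset (Fin n), S.card = r - 1 → (d - ε) * n ≤ (nbr G S).card) ∧
    (∀ ε : ℝ, 0 < ε → ∃ N : ℕ, ∀ n : ℕ, N ≤ n → ∀ G : Finset (Finset (Fin n)),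
      (∀ e ∈ G, e.card = r) → C n G →
        ∃ S : Finset (Fin n), S.card = r - 1 ∧ ((nbr G S).card : ℝ) ≤ (d + ε) * n)

theorem RC.frozen {r : ℕ} (hr : 3 ≤ r) {d : ℝ} (hd : 0 ≤ d) (h : RC r d) :
    ∃ F : (m : ℕ) → Set (Finset (Finset (Fin m))),
        (∀ m : ℕ, ∀ H ∈ F m, ∀ e ∈ H, e.card = r) ∧
        ∀ ε : ℝ, 0 < ε → ∃ N : ℕ, ∀ n : ℕ, N ≤ n →
          (∃ G : Finset (Finset (Fin n)),
              (∀ e ∈ G, e.card = r) ∧
              (∀ m : ℕ, ∀ H ∈ F m, ∀ f : Fin m ↪ Fin n, ∃ e ∈ H, e.map f ∉ G) ∧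
              ∀ S : Finset (Fin n), S.card = r - 1 →
                (d - ε) * ((n : ℝ) - (r : ℝ) + 1) ≤ ((G.filter (fun e => S ⊆ e)).card : ℝ)) ∧
          (∀ G : Finset (Finset (Fin n)),
              (∀ e ∈ G, e.card = r) →
              (∀ m : ℕ, ∀ H ∈ F m, ∀ f : Fin m ↪ Fin n, ∃ e ∈ H, e.map f ∉ G) →
              ∃ S : Finset (Fin n), S.card = r - 1 ∧
                ((G.filter (fun e => S ⊆ e)).card : ℝ) < (d + ε) * ((n : ℝ) - (r : ℝ) + 1)) := by
  obtain ⟨C, hC, hlow, hup⟩ := h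
  refine ⟨fun m => {H | (∀ e ∈ H, e.card = r) ∧ ¬ C m H}, fun m H hH e he => hH.1 e he, ?_⟩
  intro ε hε
  obtain ⟨N1, hN1⟩ := hlow ε hε
  obtain ⟨N2, hN2⟩ := hup (ε / 2) (by linarith)
  obtain ⟨N3, hN3⟩ := exists_nat_gt ((d + ε) * r / (ε / 2))
  refine ⟨max (max N1 N2) (max N3 r), fun n hn => ?_⟩
  have hn1 : N1 ≤ n := le_trans (le_trans (le_max_left _ _) (le_max_left _ _)) hn
  have hn2 : N2 ≤ n := le_trans (le_trans (le_max_right _ _) (le_max_left _ _)) hn
  have hn3 : N3 ≤ n := le_trans (le_trans (le_max_left _ _) (le_max_right _ _)) hn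
  have hnr : r ≤ n := le_trans (le_trans (le_max_right _ _) (le_max_right _ _)) hn
  have hnr' : (r : ℝ) ≤ n := by exact_mod_cast hnr
  have hr' : (3 : ℝ) ≤ r := by exact_mod_cast hr
  constructor
  · obtain ⟨G, hG, hCG, hdeg⟩ := hN1 n hn1
    refine ⟨G, hG, ?_, ?_⟩
    · intro m H hH f
      by_contra hcon
      push Not at hcon
      exact hH.2 (hC m n H G f hCG hcon)
    · intro S hS
      rw [card_nbr (by omega) G hG S hS]
      have h1 := hdeg S hS
      have h0 : (0 : ℝ) ≤ ((nbr G S).card : ℝ) := Nat.cast_nonneg _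
      rcases le_or_gt 0 (d - ε) with h2 | h2
      · nlinarith
      · nlinarith
  · intro G hG hF
    have hCG : C n G := by
      by_contra hcon
      obtain ⟨e, he, hne⟩ := hF n G ⟨hG, hcon⟩ (Function.Embedding.refl _)
      apply hne
      have : e.map (Function.Embedding.refl (Fin n)) = e := by
        ext x; simp
      rw [this]; exact he
    obtain ⟨S, hS, hdeg⟩ := hN2 n hn2 G hG hCG
    refine ⟨S, hS, ?_⟩
    rw [card_nbr (by omega) G hG S hS]
    have h3 : (d + ε) * r / (ε / 2) < n := lt_of_lt_of_le hN3 (by exact_mod_cast hn3)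
    rw [div_lt_iff₀ (by linarith)] at h3
    nlinarith

/-- The trivial density `0`. -/
theorem RC.zero (r : ℕ) : RC r 0 := by
  refine ⟨fun n G => G = ∅, ?_, ?_, ?_⟩
  · intro m n H G f hG hH
    rw [Finset.eq_empty_iff_forall_notMem]
    intro e he
    have := hH e he
    rw [hG] at this
    simp at this
  · intro ε hε
    refine ⟨0, fun n _ => ⟨∅, by simp, rfl, fun S _ => ?_⟩⟩
    have h0 : (0 : ℝ) ≤ ((nbr (∅ : Finset (Finset (Fin n))) S).card : ℝ) := Nat.cast_nonneg _
    have hn : (0 : ℝ) ≤ n := Nat.cast_nonneg _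
    nlinarith
  · intro ε hε
    refine ⟨r, fun n hn G _ hG => ?_⟩
    obtain ⟨S, -, hS⟩ := Finset.exists_subset_card_eq (s := (univ : Finset (Fin n))) (n := r - 1)
      (by simp; omega)
    refine ⟨S, hS, ?_⟩
    have : nbr G S = ∅ := by
      rw [hG]; ext v; simp [mem_nbr]
    rw [this]
    simp
    positivity

end Pool.Agent.Helper17.Codeg
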