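import Pool.Agent.Helper17.Codeg.Twist

/-!
Closure property of the base systems: a nonempty set closed under completions is everything.
-/

set_option autoImplicit false
open Finset

namespace Pool.Agent.Helper17.Codeg

def Full (r : ℕ) {G : Type} (s : SpSys G) : Prop :=
  ∀ S : Set G, S.Nonempty →
    (∀ M : Multiset G, M.card = r - 1 → (∀ Y ∈ M, Y ∈ S) → s.star M ∈ S) → ∀ Z, Z ∈ S

/-- sum-equals-one system -/
def zsys (n : ℕ) : SpSys (ZMod n) where
  Sp T := T.sum = 1
  star M := 1 - M.sum
  sp_iff := by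
    intro Z M
    rw [Multiset.sum_cons, eq_sub_iff_add_eq]

theorem full_zsys {r p k : ℕ} (hr : 3 ≤ r) (hp : p.Prime) (hpr : p ∣ r) :
    Full r (zsys (p ^ k)) := by
  have : NeZero (p ^ k) := ⟨pow_ne_zero _ hp.ne_zero⟩
  intro S hne hcl
  obtain ⟨s, hs⟩ := hne
  have step1 : ∀ x ∈ S, ∀ a ∈ S, ∀ b ∈ S, x + (a - b) ∈ S := by
    intro x hx a ha b hb
    have h1 : 1 - (x ::ₘ a ::ₘ Multiset.replicate (r - 3) s).sum ∈ S := by
      apply hcl
      · simp only [Multiset.card_cons, Multiset.card_replicate]; omega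
      · intro Y hY
        simp only [Multiset.mem_cons, Multiset.mem_replicate] at hY
        rcases hY with h | h | h
        · rw [h]; exact hx
        · rw [h]; exact ha
        · rw [h.2]; exact hs
    have h2 : 1 - ((1 - (x ::ₘ a ::ₘ Multiset.replicate (r - 3) s).sum) ::ₘ b ::ₘ
        Multiset.replicate (r - 3) s).sum ∈ S := by
      apply hcl
      · simp only [Multiset.card_cons, Multiset.card_replicate]; omega
      · intro Y hY
        simp only [Multiset.mem_cons, Multiset.mem_replicate] at hY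
        rcases hY with h | h | h
        · rw [h]; exact h1
        · rw [h]; exact hb
        · rw [h.2]; exact hs
    have h3 : 1 - ((1 - (x ::ₘ a ::ₘ Multiset.replicate (r - 3) s).sum) ::ₘ b ::ₘ
        Multiset.replicate (r - 3) s).sum = x + (a - b) := by
      simp only [Multiset.sum_cons]
      ring
    rwa [h3] at h2
  have hs' : 1 - (Multiset.replicate (r - 1) s).sum ∈ S := by
    apply hcl
    · rw [Multiset.card_replicate]
    · intro Y hY
      rw [Multiset.mem_replicate] at hY
      rw [hY.2]; exact hs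
  rw [Multiset.sum_replicate] at hs'
  have hu : 1 - (r - 1) • s - s = 1 - (r : ZMod (p ^ k)) * s := by
    have : (r : ZMod (p ^ k)) = ((r - 1 : ℕ) : ZMod (p ^ k)) + 1 := by
      have h : r = (r - 1) + 1 := by omega
      conv_lhs => rw [h]
      push_cast
      rfl
    rw [this, nsmul_eq_mul]
    ring
  have hnil : IsNilpotent ((r : ZMod (p ^ k)) * s) := by
    refine ⟨k, ?_⟩
    rw [mul_pow]
    have : (r : ZMod (p ^ k)) ^ k = 0 := by
      have h := (ZMod.natCast_eq_zero_iff (r ^ k) (p ^ k)).2 (pow_dvd_pow_of_dvd hpr k)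
      rwa [Nat.cast_pow] at h
    rw [this, zero_mul]
  have hunit : IsUnit (1 - (r : ZMod (p ^ k)) * s) := hnil.isUnit_one_sub
  obtain ⟨u, hu'⟩ := hunit
  have step2 : ∀ n : ℕ, s + n • (u : ZMod (p ^ k)) ∈ S := by
    intro n
    induction n with
    | zero => simpa using hs
    | succ n ih =>
      have h := step1 _ ih _ hs' _ hs
      rw [hu, ← hu'] at h
      rw [succ_nsmul, ← add_assoc]
      exact h
  intro Z
  have h := step2 ((Z - s) * (↑u⁻¹ : ZMod (p ^ k))).val
  rw [nsmul_eq_mul, ZMod.natCast_zmod_val, mul_assoc, Units.inv_mul, mul_one,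
    add_sub_cancel] at h
  exact h

lemma ext_star_eq {G : Type} (s : SpSys G) (q : ℕ) (a : Multiset G → ZMod q) (n : ℕ)
    (X Y X0 Z : G) (x y x0 z : ZMod q)
    (h1 : s.Sp (X ::ₘ Y ::ₘ Z ::ₘ Multiset.replicate n X0))
    (h2 : x + y + z + n • x0 = a (X ::ₘ Y ::ₘ Z ::ₘ Multiset.replicate n X0) + 1) :
    (s.ext q a).star ((X, x) ::ₘ (Y, y) ::ₘ Multiset.replicate n (X0, x0)) = (Z, z) := by
  symm
  rw [← SpSys.sp_iff]
  have hperm : Z ::ₘ X ::ₘ Y ::ₘ Multiset.replicate n X0
      = X ::ₘ Y ::ₘ Z ::ₘ Multiset.replicate n X0 := by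
    rw [Multiset.cons_swap Z X, Multiset.cons_swap Z Y]
  refine ⟨?_, ?_⟩
  · simp only [Multiset.map_cons, Multiset.map_replicate]
    rw [hperm]
    exact h1
  · simp only [Multiset.map_cons, Multiset.map_replicate, Multiset.sum_cons,
      Multiset.sum_replicate]
    rw [hperm, ← h2]
    ring

theorem full_ext {r : ℕ} (hr : 3 ≤ r) {G : Type} [Fintype G] [Nonempty G] {s : SpSys G}
    (hs : Full r s) {b : ℕ} {a : Multiset G → ZMod b} (ha : TwistOK r s b a) :
    Full r (s.ext b a) := by
  classical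
  intro S hne hcl
  have hproj : ∀ Z : G, ∃ z, (Z, z) ∈ S := by
    apply hs {Z | ∃ z, (Z, z) ∈ S}
    · obtain ⟨⟨Z, z⟩, hZ⟩ := hne
      exact ⟨Z, z, hZ⟩
    · intro M hM hMS
      let φ : G → ZMod b := fun Y => if h : ∃ z, (Y, z) ∈ S then h.choose else 0
      have hφ : ∀ Y ∈ M, (Y, φ Y) ∈ S := by
        intro Y hY
        have h : ∃ z, (Y, z) ∈ S := hMS Y hY
        simp only [φ]
        rw [dif_pos h]
        exact h.choose_spec
      have h := hcl (M.map (fun Y => (Y, φ Y))) (by rw [Multiset.card_map, hM]) (by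
        intro Y' hY'
        obtain ⟨Y, hY, rfl⟩ := Multiset.mem_map.1 hY'
        exact hφ Y hY)
      refine ⟨((s.ext b a).star (M.map (fun Y => (Y, φ Y)))).2, ?_⟩
      have h2 : ((s.ext b a).star (M.map (fun Y => (Y, φ Y)))).1 = s.star M := by
        simp [SpSys.ext, Multiset.map_map]
      rw [← h2]
      exact h
  choose φ hφ using hproj
  let ζ : G → Option (ZMod b) := fun Z => if h : ∃ z, (Z, z) ∉ S then some h.choose else none
  have hζ : ∀ Z z, ζ Z = some z → (Z, z) ∉ S := by
    intro Z z h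
    simp only [ζ] at h
    split_ifs at h with h1
    · simp only [Option.some.injEq] at h
      rw [← h]
      exact h1.choose_spec
  have hfew : 20 * (univ.filter (fun Z => ζ Z ≠ none)).card ≤ Fintype.card G := by
    by_contra hcon
    push Not at hcon
    obtain ⟨X, Y, X0, Z, x, y, x0, z, hX, hY, hX0, hZ, hSp, hsum⟩ :=
      ha (fun X => some (φ X)) ζ (by simp) hcon
    simp only [Option.some.injEq] at hX hY hX0
    apply hζ Z z hZ
    rw [← ext_star_eq s b a (r - 3) X Y X0 Z x y x0 z hSp hsum]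
    apply hcl
    · simp only [Multiset.card_cons, Multiset.card_replicate]; omega
    · intro W hW
      simp only [Multiset.mem_cons, Multiset.mem_replicate] at hW
      rcases hW with h | h | h
      · rw [h, ← hX]; exact hφ X
      · rw [h, ← hY]; exact hφ Y
      · rw [h.2, ← hX0]; exact hφ X0
  have hX1 : ∃ X1, ∀ z, (X1, z) ∈ S := by
    by_contra hcon
    push Not at hcon
    have h1 : (univ.filter (fun Z => ζ Z ≠ none)) = univ := by
      ext Z
      simp only [mem_filter, mem_univ, true_and, iff_true, ζ]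
      rw [dif_pos (hcon Z)]
      simp
    rw [h1, Finset.card_univ] at hfew
    have : 0 < Fintype.card G := Fintype.card_pos
    omega
  obtain ⟨X1, hX1⟩ := hX1
  rintro ⟨Z, z⟩
  set Y := s.star (X1 ::ₘ Z ::ₘ Multiset.replicate (r - 3) X1) with hY
  have hSp : s.Sp (X1 ::ₘ Y ::ₘ Z ::ₘ Multiset.replicate (r - 3) X1) := by
    rw [Multiset.cons_swap, s.sp_iff]
  have := ext_star_eq s b a (r - 3) X1 Y X1 Z
    (a (X1 ::ₘ Y ::ₘ Z ::ₘ Multiset.replicate (r - 3) X1) + 1 - z - φ Y - (r - 3) • φ X1)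
    (φ Y) (φ X1) z hSp (by ring)
  rw [← this]
  apply hcl
  · simp only [Multiset.card_cons, Multiset.card_replicate]; omega
  · intro W hW
    simp only [Multiset.mem_cons, Multiset.mem_replicate] at hW
    rcases hW with h | h | h
    · rw [h]; exact hX1 _
    · rw [h]; exact hφ Y
    · rw [h.2]; exact hφ X1

end Pool.Agent.Helper17.Codeg
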