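import Pool.Agent.Helper17.Codeg.Balanced

/-!
Composition: if `u` is a codegree density and `N ≥ 2`, `0 ≤ u ≤ 1/(N-1)`, then `(1+u)/N` is a
codegree density.
-/

set_option autoImplicit false
open Finset

namespace Pool.Agent.Helper17.Codeg

variable {r N : ℕ}

/-- the composed class -/
def CompC (r N : ℕ) (Cu : (n : ℕ) → Finset (Finset (Fin n)) → Prop) (n : ℕ)
    (G : Finset (Finset (Fin n))) : Prop :=
  ∃ c : Fin n → ZMod N,
    (∀ (S : Finset (Fin n)) (v : Fin n) (i : ZMod N), S.card = r - 1 → v ∉ S →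
      (∀ s ∈ S, c s = i) → insert v S ∈ G → c v = i ∨ c v = i + 1) ∧
    (∀ (i : ZMod N) (k : ℕ) (g : Fin k ↪ Fin n), (∀ v, c (g v) = i) → Cu k (pull g G))

lemma compC_hered {Cu : (n : ℕ) → Finset (Finset (Fin n)) → Prop} (hCu : Hered Cu) :
    Hered (CompC r N Cu) := by
  rintro m n H G f ⟨c, hc1, hc2⟩ hH
  refine ⟨fun v => c (f v), ?_, ?_⟩
  · intro S v i hS hv hmono hins
    apply hc1 (S.map f) (f v) i (by rw [card_map, hS])
    · simpa using hv
    · intro s hs
      obtain ⟨s', hs', rfl⟩ := Finset.mem_map.1 hs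
      exact hmono s' hs'
    · have := hH _ hins
      rwa [Finset.map_insert] at this
  · intro i k g hg
    apply hCu k k _ (pull (g.trans f) G) (Function.Embedding.refl _)
    · exact hc2 i k (g.trans f) (fun v => hg v)
    · intro e he
      rw [mem_pull] at he ⊢
      have h1 : e.map (Function.Embedding.refl _) = e := by ext x; simp
      rw [h1, ← Finset.map_map]
      exact hH _ he

lemma sum_class_card {n : ℕ} [NeZero N] (c : Fin n → ZMod N) :
    ∑ i : ZMod N, (univ.filter (fun v => c v = i)).card = n := by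
  have := Finset.card_eq_sum_card_fiberwise (f := c) (s := (univ : Finset (Fin n)))
    (t := (univ : Finset (ZMod N))) (by intro x _; simp)
  rw [Finset.card_univ, Fintype.card_fin] at this
  exact this.symm

/-- upper bound part -/
lemma compC_upper {Cu : (n : ℕ) → Finset (Finset (Fin n)) → Prop} (hN : 2 ≤ N)
    {u : ℝ} (hu0 : 0 ≤ u) (hu1 : u * (N - 1) ≤ 1)
    (hup : ∀ ε : ℝ, 0 < ε → ∃ N : ℕ, ∀ n : ℕ, N ≤ n → ∀ G : Finset (Finset (Fin n)),
      (∀ e ∈ G, e.card = r) → Cu n G →
        ∃ S : Finset (Fin n), S.card = r - 1 ∧ ((nbr G S).card : ℝ) ≤ (u + ε) * n)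
    (ε : ℝ) (hε : 0 < ε) :
    ∃ M : ℕ, ∀ n : ℕ, M ≤ n → ∀ G : Finset (Finset (Fin n)),
      (∀ e ∈ G, e.card = r) → CompC r N Cu n G →
        ∃ S : Finset (Fin n), S.card = r - 1 ∧
          ((nbr G S).card : ℝ) ≤ ((1 + u) / N + ε) * n := by
  have : NeZero N := ⟨by omega⟩
  have hN' : (2 : ℝ) ≤ N := by exact_mod_cast hN
  obtain ⟨N0, hN0⟩ := hup (ε / 2) (by linarith)
  obtain ⟨N2, hN2⟩ := exists_nat_gt ((N0 : ℝ) / (ε / 2))
  refine ⟨max (N * N0) (max N2 1), fun n hn G hG hCG => ?_⟩
  have hn1 : N * N0 ≤ n := le_trans (le_max_left _ _) hn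
  have hn2 : N2 ≤ n := le_trans (le_trans (le_max_left _ _) (le_max_right _ _)) hn
  have hn3 : 1 ≤ n := le_trans (le_trans (le_max_right _ _) (le_max_right _ _)) hn
  have hn3' : (1 : ℝ) ≤ n := by exact_mod_cast hn3
  have hn2' : (N0 : ℝ) < n * (ε / 2) := by
    rw [div_lt_iff₀ (by linarith)] at hN2
    have : (N2 : ℝ) ≤ n := by exact_mod_cast hn2
    nlinarith
  obtain ⟨c, hc1, hc2⟩ := hCG
  set k : ZMod N → ℕ := fun i => (univ.filter (fun v => c v = i)).card with hk
  have hsum : ∑ i, k i = n := sum_class_card c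
  have hsum' : ∑ i, (k i : ℝ) = n := by exact_mod_cast hsum
  by_contra hcon
  push Not at hcon
  have key : ∀ i, N0 ≤ k i → ((1 + u) / N + ε) * n < (u + ε / 2) * k i + k (i + 1) := by
    intro i hi
    obtain ⟨g, hg⟩ := exists_class_emb c i
    have hgc : ∀ v, c (g v) = i := fun v => (hg (g v)).1 ⟨v, rfl⟩
    obtain ⟨S', hS', hdeg⟩ := hN0 (k i) hi (pull g G) (by
      intro e he
      rw [mem_pull] at he
      have := hG _ he
      rwa [card_map] at this) (hc2 i _ g hgc)
    have h1 := hcon (S'.map g) (by rw [card_map, hS'])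
    have h2 : nbr G (S'.map g) ⊆ (nbr (pull g G) S').map g ∪
        univ.filter (fun v => c v = i + 1) := by
      intro v hv
      rw [mem_nbr] at hv
      have hmono : ∀ s ∈ S'.map g, c s = i := by
        intro s hs
        obtain ⟨s', _, rfl⟩ := Finset.mem_map.1 hs
        exact hgc s'
      rcases hc1 (S'.map g) v i (by rw [card_map, hS']) hv.1 hmono hv.2 with h | h
      · obtain ⟨v', rfl⟩ := (hg v).2 h
        rw [Finset.mem_union]; left
        rw [Finset.mem_map]
        refine ⟨v', ?_, rfl⟩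
        rw [mem_nbr, mem_pull, Finset.map_insert]
        refine ⟨?_, hv.2⟩
        intro h3
        exact hv.1 (Finset.mem_map_of_mem g h3)
      · rw [Finset.mem_union]; right
        simp [h]
    have h3 : (nbr G (S'.map g)).card ≤ (nbr (pull g G) S').card + k (i + 1) := by
      refine le_trans (Finset.card_le_card h2) (le_trans (Finset.card_union_le _ _) ?_)
      rw [card_map]
    have h4 : ((nbr G (S'.map g)).card : ℝ) ≤ (nbr (pull g G) S').card + k (i + 1) := by
      exact_mod_cast h3
    linarith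
  have hut : u ≤ (1 + u) / N := by
    rw [le_div_iff₀ (by linarith)]; nlinarith
  by_cases hall : ∀ i, N0 ≤ k i
  · have h1 : ∑ i : ZMod N, ((1 + u) / N + ε) * (n : ℝ) <
        ∑ i : ZMod N, ((u + ε / 2) * k i + k (i + 1)) :=
      Finset.sum_lt_sum_of_nonempty ⟨0, Finset.mem_univ _⟩ (fun i _ => key i (hall i))
    rw [Finset.sum_const, Finset.card_univ, ZMod.card, Finset.sum_add_distrib,
      ← Finset.mul_sum, hsum', nsmul_eq_mul] at h1
    have h2 : ∑ i : ZMod N, (k (i + 1) : ℝ) = n := by
      rw [← hsum']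
      exact Fintype.sum_equiv (Equiv.addRight 1) _ _ (fun i => rfl)
    rw [h2] at h1
    have h3 : (N : ℝ) * (((1 + u) / N + ε) * n) = (1 + u) * n + N * ε * n := by
      field_simp
    rw [h3] at h1
    have h4 : (N : ℝ) * ε * n ≥ 2 * ε * n := by
      have : 0 ≤ ε * n := by positivity
      nlinarith
    nlinarith
  · push Not at hall
    obtain ⟨i0, hi0⟩ := hall
    have hex1 : ∃ i1, N0 ≤ k i1 := by
      by_contra hno
      push Not at hno
      have : ∑ i : ZMod N, k i < ∑ i : ZMod N, N0 :=
        Finset.sum_lt_sum_of_nonempty ⟨0, Finset.mem_univ _⟩ (fun i _ => hno i)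
      rw [hsum, Finset.sum_const, Finset.card_univ, ZMod.card, smul_eq_mul] at this
      omega
    obtain ⟨i1, hi1⟩ := hex1
    have hex : ∃ i, N0 ≤ k i ∧ k (i + 1) < N0 := by
      by_contra hno
      push Not at hno
      have hall2 : ∀ m : ℕ, N0 ≤ k (i1 + m) := by
        intro m
        induction m with
        | zero => simpa using hi1
        | succ m ih =>
          have := hno _ ih
          push_cast
          rwa [← add_assoc]
      have := hall2 (i0 - i1).val
      rw [ZMod.natCast_zmod_val] at this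
      rw [add_sub_cancel] at this
      omega
    obtain ⟨i, hi, hi'⟩ := hex
    have h1 := key i hi
    have h2 : (k i : ℝ) ≤ n := by
      rw [← hsum']
      exact Finset.single_le_sum (f := fun i => (k i : ℝ)) (fun j _ => Nat.cast_nonneg _)
        (Finset.mem_univ i)
    have h3 : (k (i + 1) : ℝ) < N0 := by exact_mod_cast hi'
    nlinarith

/-- For a non-monochromatic set `S`, colour `k` is bad if a vertex of colour `k` could fail to
complete `S` to an allowed edge. -/
def BadCol {n : ℕ} (c : Fin n → ZMod N) (S : Finset (Fin n)) (k : ZMod N) : Prop :=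
  ∃ v ∈ S, (∀ s ∈ S.erase v, c s = k) ∧ c v ≠ k + 1

lemma exists_two_good (hN : 2 ≤ N) {n : ℕ} (c : Fin n → ZMod N) (S : Finset (Fin n))
    (hS : 2 ≤ S.card) (hmono : ¬ ∃ i, ∀ s ∈ S, c s = i) :
    ∃ k1 k2 : ZMod N, k1 ≠ k2 ∧ ¬ BadCol c S k1 ∧ ¬ BadCol c S k2 := by
  have : Fact (1 < N) := ⟨by omega⟩
  have h01 : (0 : ZMod N) ≠ 1 := zero_ne_one
  by_cases hb : ∃ k, BadCol c S k
  · obtain ⟨k, v, hv, hvk, hvc⟩ := hb
    have hne : (S.erase v).Nonempty := by
      rw [← Finset.card_pos, Finset.card_erase_of_mem hv]; omega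
    obtain ⟨s0, hs0⟩ := hne
    have hs0S := Finset.mem_of_mem_erase hs0
    have hs0v : s0 ≠ v := Finset.ne_of_mem_erase hs0
    have hcs0 : c s0 = k := hvk s0 hs0
    have hjk : c v ≠ k := by
      intro h
      apply hmono
      refine ⟨k, fun s hs => ?_⟩
      by_cases hsv : s = v
      · rw [hsv, h]
      · exact hvk s (Finset.mem_erase.2 ⟨hsv, hs⟩)
    have hg1 : ¬ BadCol c S (k + 1) := by
      rintro ⟨v2, hv2, h2, h3⟩
      by_cases h4 : s0 = v2
      · apply hvc
        apply h2
        rw [← h4]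
        exact Finset.mem_erase.2 ⟨fun h => hs0v h.symm, hv⟩
      · have := h2 s0 (Finset.mem_erase.2 ⟨h4, hs0S⟩)
        rw [hcs0] at this
        exact h01 (by simp at this)
    by_cases h5 : k = c v + 1
    · refine ⟨k + 1, c v, fun h => hvc h.symm, hg1, ?_⟩
      rintro ⟨v2, hv2, h2, h3⟩
      by_cases h4 : s0 = v2
      · apply h3
        rw [← h4, hcs0, h5]
      · have := h2 s0 (Finset.mem_erase.2 ⟨h4, hs0S⟩)
        rw [hcs0] at this
        exact hjk this.symm
    · refine ⟨k + 1, c v + 1, fun h => hjk (by simpa using h.symm), hg1, ?_⟩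
      rintro ⟨v2, hv2, h2, h3⟩
      by_cases h4 : v = v2
      · have := h2 s0 (by rw [← h4]; exact hs0)
        rw [hcs0] at this
        exact h5 this
      · have := h2 v (Finset.mem_erase.2 ⟨h4, hv⟩)
        exact h01 (by simp at this)
  · push Not at hb
    exact ⟨0, 1, h01, hb 0, hb 1⟩

lemma nat_div_lower (n N : ℕ) (hN : 2 ≤ N) : (n : ℝ) / N - 1 ≤ ((n / N : ℕ) : ℝ) := by
  have hN' : (2 : ℝ) ≤ N := by exact_mod_cast hN
  have h1 : n < N * (n / N + 1) := Nat.lt_mul_div_succ n (by omega)
  have h2 : (n : ℝ) < N * ((n / N : ℕ) + 1) := by exact_mod_cast h1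
  rw [sub_le_iff_le_add, div_le_iff₀ (by linarith)]
  nlinarith

/-- lower bound part -/
lemma compC_lower {Cu : (n : ℕ) → Finset (Finset (Fin n)) → Prop} (hCu : Hered Cu)
    (hr : 3 ≤ r) (hN : 2 ≤ N) {u : ℝ} (hu0 : 0 ≤ u) (hu1 : u * (N - 1) ≤ 1)
    (hlow : ∀ ε : ℝ, 0 < ε → ∃ N : ℕ, ∀ n : ℕ, N ≤ n → ∃ G : Finset (Finset (Fin n)),
      (∀ e ∈ G, e.card = r) ∧ Cu n G ∧
        ∀ S : Finset (Fin n), S.card = r - 1 → (u - ε) * n ≤ (nbr G S).card)
    (ε : ℝ) (hε : 0 < ε) :
    ∃ M : ℕ, ∀ n : ℕ, M ≤ n → ∃ G : Finset (Finset (Fin n)),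
      (∀ e ∈ G, e.card = r) ∧ CompC r N Cu n G ∧
        ∀ S : Finset (Fin n), S.card = r - 1 →
          ((1 + u) / N - ε) * n ≤ (nbr G S).card := by
  have : NeZero N := ⟨by omega⟩
  have hF : Fact (1 < N) := ⟨by omega⟩
  have h01 : (1 : ZMod N) ≠ 0 := one_ne_zero
  have hN' : (2 : ℝ) ≤ N := by exact_mod_cast hN
  have hr' : (3 : ℝ) ≤ r := by exact_mod_cast hr
  obtain ⟨N0, hN0⟩ := hlow (ε / 2) (by linarith)
  obtain ⟨N2, hN2⟩ := exists_nat_gt ((r + 2 : ℝ) / (ε / 2))
  refine ⟨max (N * N0) (max N2 N), fun n hn => ?_⟩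
  have hn1 : N * N0 ≤ n := le_trans (le_max_left _ _) hn
  have hn2 : N2 ≤ n := le_trans (le_trans (le_max_left _ _) (le_max_right _ _)) hn
  have hn3 : N ≤ n := le_trans (le_trans (le_max_right _ _) (le_max_right _ _)) hn
  have hn2' : (r + 2 : ℝ) < n * (ε / 2) := by
    rw [div_lt_iff₀ (by linarith)] at hN2
    have : (N2 : ℝ) ≤ n := by exact_mod_cast hn2
    nlinarith
  obtain ⟨c, hc⟩ := exists_balanced n (ZMod N)
  rw [ZMod.card] at hc
  set k : ZMod N → ℕ := fun i => (univ.filter (fun v => c v = i)).card with hk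
  have hkN0 : ∀ i, N0 ≤ k i := fun i =>
    le_trans ((Nat.le_div_iff_mul_le (by omega)).2 (by rw [mul_comm]; exact hn1)) (hc i)
  have hk1 : ∀ i, (n : ℝ) / N - 1 ≤ k i := fun i =>
    le_trans (nat_div_lower n N hN) (by exact_mod_cast hc i)
  have hnN : 1 ≤ (n : ℝ) / N := by
    rw [le_div_iff₀ (by linarith)]
    have : (N : ℝ) ≤ n := by exact_mod_cast hn3
    linarith
  choose Gi hGi1 hGi2 hGi3 using fun i => hN0 (k i) (hkN0 i)
  choose g hg using fun i => exists_class_emb c i
  have hgc : ∀ i v, c (g i v) = i := fun i v => (hg i (g i v)).1 ⟨v, rfl⟩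
  classical
  set G : Finset (Finset (Fin n)) := univ.filter (fun e => e.card = r ∧
    ((∃ i, (∀ v ∈ e, c v = i) ∧ ∃ e' ∈ Gi i, e'.map (g i) = e) ∨
     ((¬ ∃ i, ∀ v ∈ e, c v = i) ∧
       ∀ v ∈ e, ∀ i, (∀ s ∈ e.erase v, c s = i) → c v = i + 1))) with hG
  have memG : ∀ e, e ∈ G ↔ e.card = r ∧
    ((∃ i, (∀ v ∈ e, c v = i) ∧ ∃ e' ∈ Gi i, e'.map (g i) = e) ∨
     ((¬ ∃ i, ∀ v ∈ e, c v = i) ∧
       ∀ v ∈ e, ∀ i, (∀ s ∈ e.erase v, c s = i) → c v = i + 1)) := by
    intro e; rw [hG]; simp
  refine ⟨G, fun e he => ((memG e).1 he).1, ⟨c, ?_, ?_⟩, ?_⟩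
  · intro S v i hS hv hmono hins
    obtain ⟨_, h | h⟩ := (memG _).1 hins
    · obtain ⟨i', hi', _⟩ := h
      left
      have hne : S.Nonempty := by rw [← Finset.card_pos]; omega
      obtain ⟨s, hs⟩ := hne
      rw [hi' v (Finset.mem_insert_self _ _), ← hmono s hs,
        hi' s (Finset.mem_insert_of_mem hs)]
    · right
      apply h.2 v (Finset.mem_insert_self _ _) i
      rw [Finset.erase_insert hv]
      exact hmono
  · intro i k' g' hg'
    have hfac : ∀ v, ∃ x, g i x = g' v := fun v => (hg i (g' v)).2 (hg' v)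
    choose f hf using hfac
    have hfinj : Function.Injective f := by
      intro a b hab
      apply g'.injective
      rw [← hf a, ← hf b, hab]
    apply hCu k' (k i) (pull g' G) (Gi i) ⟨f, hfinj⟩ (hGi2 i)
    intro e he
    rw [mem_pull] at he
    obtain ⟨hcard, h⟩ := (memG _).1 he
    have hmono : ∀ v ∈ e.map g', c v = i := by
      intro v hv
      obtain ⟨v', _, rfl⟩ := Finset.mem_map.1 hv
      exact hg' v'
    have hne : (e.map g').Nonempty := by rw [← Finset.card_pos]; omega
    rcases h with h | h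
    · obtain ⟨i', hi', e', he', hee⟩ := h
      obtain ⟨w, hw⟩ := hne
      have hii : i' = i := by rw [← hi' w hw, hmono w hw]
      subst hii
      have h1 : (e.map ⟨f, hfinj⟩).map (g i') = e.map g' := by
        rw [Finset.map_map]
        congr 1
        ext v
        simp [hf]
      rw [← hee] at h1
      have h2 := (Finset.map_injective (g i')) h1
      rw [h2]
      exact he'
    · exact absurd ⟨i, hmono⟩ h.1
  · intro S hS
    by_cases hmono : ∃ i, ∀ s ∈ S, c s = i
    · obtain ⟨i, hi⟩ := hmono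
      obtain ⟨S', hS'⟩ := exists_preimage_finset (g i) S (fun v hv => (hg i v).2 (hi v hv))
      have hS'c : S'.card = r - 1 := by rw [← hS, ← hS', card_map]
      have hsub : (nbr (Gi i) S').map (g i) ∪ univ.filter (fun v => c v = i + 1) ⊆ nbr G S := by
        intro v hv
        rcases Finset.mem_union.1 hv with h | h
        · obtain ⟨v', hv', rfl⟩ := Finset.mem_map.1 h
          rw [mem_nbr] at hv' ⊢
          have hvS : g i v' ∉ S := by
            rw [← hS', Finset.mem_map']
            exact hv'.1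
          refine ⟨hvS, ?_⟩
          rw [memG]
          refine ⟨?_, Or.inl ⟨i, ?_, insert v' S', hv'.2, ?_⟩⟩
          · rw [Finset.card_insert_of_notMem hvS, hS]; omega
          · intro w hw
            rcases Finset.mem_insert.1 hw with h2 | h2
            · rw [h2]; exact hgc i v'
            · exact hi w h2
          · rw [Finset.map_insert, hS']
        · have hcv : c v = i + 1 := by simpa using h
          have hvS : v ∉ S := by
            intro h2
            have := hi v h2
            rw [hcv] at this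
            exact h01 (by simpa using this)
          rw [mem_nbr]
          refine ⟨hvS, ?_⟩
          rw [memG]
          refine ⟨?_, Or.inr ⟨?_, ?_⟩⟩
          · rw [Finset.card_insert_of_notMem hvS, hS]; omega
          · rintro ⟨i', hi'⟩
            have hne : S.Nonempty := by rw [← Finset.card_pos]; omega
            obtain ⟨s, hs⟩ := hne
            have h1 := hi' v (Finset.mem_insert_self _ _)
            have h2 := hi' s (Finset.mem_insert_of_mem hs)
            rw [hi s hs] at h2
            rw [hcv, ← h2] at h1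
            exact h01 (by simpa using h1)
          · intro v' hv' i' h2
            rcases Finset.mem_insert.1 hv' with h3 | h3
            · rw [h3] at h2 ⊢
              rw [Finset.erase_insert hvS] at h2
              have hne : S.Nonempty := by rw [← Finset.card_pos]; omega
              obtain ⟨s, hs⟩ := hne
              rw [hcv, ← hi s hs, h2 s hs]
            · exfalso
              have hne : (S.erase v').Nonempty := by
                rw [← Finset.card_pos, Finset.card_erase_of_mem h3]; omega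
              obtain ⟨s, hs⟩ := hne
              have h4 := h2 s (Finset.mem_erase.2 ⟨Finset.ne_of_mem_erase hs,
                Finset.mem_insert_of_mem (Finset.mem_of_mem_erase hs)⟩)
              have h5 := h2 v (Finset.mem_erase.2 ⟨fun h6 => hvS (h6 ▸ h3),
                Finset.mem_insert_self _ _⟩)
              rw [hi s (Finset.mem_of_mem_erase hs)] at h4
              rw [hcv, ← h4] at h5
              exact h01 (by simpa using h5)
      have hdisj : Disjoint ((nbr (Gi i) S').map (g i)) (univ.filter (fun v => c v = i + 1)) := by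
        rw [Finset.disjoint_left]
        intro v hv hv2
        obtain ⟨v', _, rfl⟩ := Finset.mem_map.1 hv
        have h1 : c (g i v') = i + 1 := by simpa using hv2
        rw [hgc] at h1
        exact h01 (by simpa using h1.symm)
      have hcard : (nbr (Gi i) S').card + k (i + 1) ≤ (nbr G S).card := by
        refine le_trans (le_of_eq ?_) (Finset.card_le_card hsub)
        rw [Finset.card_union_of_disjoint hdisj, card_map]
      have hcard' : ((nbr (Gi i) S').card : ℝ) + k (i + 1) ≤ (nbr G S).card := by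
        exact_mod_cast hcard
      have h1 : (u - ε / 2) * (k i : ℝ) ≤ ((nbr (Gi i) S').card : ℝ) := hGi3 i S' hS'c
      have h0 : (0 : ℝ) ≤ ((nbr (Gi i) S').card : ℝ) := Nat.cast_nonneg _
      have h2 : (u - ε / 2) * ((n : ℝ) / N - 1) ≤ ((nbr (Gi i) S').card : ℝ) := by
        rcases le_or_gt 0 (u - ε / 2) with h3 | h3
        · exact le_trans (mul_le_mul_of_nonneg_left (hk1 i) h3) h1
        · nlinarith
      have h3 := hk1 (i + 1)
      have h4 : ((1 + u) / N - ε) * n ≤ (u - ε / 2) * ((n : ℝ) / N - 1) + ((n : ℝ) / N - 1) := by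
        have h5 : (n : ℝ) / N ≤ n := div_le_self (Nat.cast_nonneg _) (by linarith)
        have h6 : (1 + u) / N * (n : ℝ) = (1 + u) * ((n : ℝ) / N) := by ring
        have h7 : u ≤ 1 := by nlinarith
        have h8 : ((1 + u) / N - ε) * n = (1 + u) * ((n : ℝ) / N) - ε * n := by
          rw [sub_mul, h6]
        rw [h8]
        nlinarith
      linarith
    · obtain ⟨k1, k2, hne, hk1', hk2'⟩ := exists_two_good hN c S (by omega) hmono
      have hgood : ∀ k0 : ZMod N, ¬ BadCol c S k0 → ∀ v, v ∉ S → c v = k0 → v ∈ nbr G S := by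
        intro k0 hk0 v hvS hcv
        rw [mem_nbr]
        refine ⟨hvS, ?_⟩
        rw [memG]
        refine ⟨by rw [Finset.card_insert_of_notMem hvS, hS]; omega, Or.inr ⟨?_, ?_⟩⟩
        · rintro ⟨i, hi⟩
          exact hmono ⟨i, fun s hs => hi s (Finset.mem_insert_of_mem hs)⟩
        · intro v' hv' i' h2
          rcases Finset.mem_insert.1 hv' with h3 | h3
          · exfalso
            rw [h3, Finset.erase_insert hvS] at h2
            exact hmono ⟨i', h2⟩
          · by_contra h4
            apply hk0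
            have hvi : c v = i' := h2 v (Finset.mem_erase.2 ⟨fun h6 => hvS (h6 ▸ h3),
                Finset.mem_insert_self _ _⟩)
            refine ⟨v', h3, fun s hs => ?_, ?_⟩
            · rw [← hcv, hvi]
              exact h2 s (Finset.mem_erase.2 ⟨Finset.ne_of_mem_erase hs,
                Finset.mem_insert_of_mem (Finset.mem_of_mem_erase hs)⟩)
            · rw [← hcv, hvi]; exact h4
      have hsub : (univ.filter (fun v => c v = k1) ∪ univ.filter (fun v => c v = k2)) \ S
          ⊆ nbr G S := by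
        intro v hv
        rw [Finset.mem_sdiff, Finset.mem_union] at hv
        rcases hv.1 with h | h
        · exact hgood k1 hk1' v hv.2 (by simpa using h)
        · exact hgood k2 hk2' v hv.2 (by simpa using h)
      have hdisj : Disjoint (univ.filter (fun v => c v = k1))
          (univ.filter (fun v => c v = k2)) := by
        rw [Finset.disjoint_left]
        intro v hv hv2
        have h1 : c v = k1 := by simpa using hv
        have h2 : c v = k2 := by simpa using hv2
        exact hne (by rw [← h1, ← h2])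
      have hcard : k k1 + k k2 ≤ (nbr G S).card + (r - 1) := by
        have h1 := Finset.card_le_card hsub
        have h2 := Finset.le_card_sdiff S
          (univ.filter (fun v => c v = k1) ∪ univ.filter (fun v => c v = k2))
        rw [Finset.card_union_of_disjoint hdisj, hS] at h2
        simp only [hk]
        omega
      have hcard' : (k k1 : ℝ) + k k2 ≤ (nbr G S).card + r := by
        have : k k1 + k k2 ≤ (nbr G S).card + r := by omega
        exact_mod_cast this
      have h3 := hk1 k1
      have h4 := hk1 k2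
      have h7 : u ≤ 1 := by nlinarith
      have h6 : (1 + u) / N * (n : ℝ) = (1 + u) * ((n : ℝ) / N) := by ring
      have h8 : ((1 + u) / N - ε) * n = (1 + u) * ((n : ℝ) / N) - ε * n := by
        rw [sub_mul, h6]
      rw [h8]
      nlinarith

theorem RC.compose (hr : 3 ≤ r) (hN : 2 ≤ N) {u : ℝ} (hu0 : 0 ≤ u) (hu1 : u * (N - 1) ≤ 1)
    (h : RC r u) : RC r ((1 + u) / N) := by
  obtain ⟨Cu, hC, hlow, hup⟩ := h
  exact ⟨CompC r N Cu, compC_hered hC, compC_lower hC hr hN hu0 hu1 hlow,
    compC_upper hN hu0 hu1 hup⟩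

end Pool.Agent.Helper17.Codeg
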