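import Mathlib

/-!
Engel-type descent: a set of reals containing `[0,t0)` and closed under `u ↦ (1+u)/N`
(for `0 ≤ u ≤ 1/(N-1)`) contains `[0,1)`.
-/

set_option autoImplicit false

namespace Pool.Agent.Helper17.Codeg

lemma engel_step (A : ℝ → Prop) (N : ℕ) (hN : 2 ≤ N)
    (hA : ∀ u : ℝ, 0 ≤ u → u * (N - 1) ≤ 1 → A u → A ((1 + u) / N))
    (h0 : ∀ t : ℝ, 0 ≤ t → t * N < 1 → A t) :
    ∀ t : ℝ, 0 ≤ t → t * (N - 1) < 1 → A t := by
  have hN' : (2 : ℝ) ≤ N := by exact_mod_cast hN
  have key : ∀ s : ℕ, ∀ t : ℝ, 0 ≤ t → t * (N - 1) < 1 →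
      1 ≤ (1 - t * (N - 1)) * (N : ℝ) ^ s → A t := by
    intro s
    induction s with
    | zero =>
      intro t ht _ h
      have ht0 : t = 0 := by
        simp at h
        nlinarith
      rw [ht0]
      exact h0 0 le_rfl (by simp)
    | succ s ih =>
      intro t ht ht1 h
      rcases lt_or_ge (t * N) 1 with h1 | h1
      · exact h0 t ht h1
      · have hu : A (N * t - 1) := by
          apply ih
          · linarith
          · nlinarith
          · rw [pow_succ] at h
            have : (1 - (N * t - 1) * ((N : ℝ) - 1)) * (N : ℝ) ^ s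
                = (1 - t * (N - 1)) * ((N : ℝ) ^ s * N) := by ring
            rw [this]; exact h
        have := hA (N * t - 1) (by linarith) (by nlinarith) hu
        have h2 : (1 + (N * t - 1)) / (N : ℝ) = t := by
          field_simp
          ring
        rwa [h2] at this
  intro t ht ht1
  obtain ⟨s, hs⟩ := pow_unbounded_of_one_lt (1 / (1 - t * (N - 1))) (by linarith : (1 : ℝ) < N)
  apply key s t ht ht1
  rw [div_lt_iff₀ (by linarith)] at hs
  linarith

theorem engel (A : ℝ → Prop) (t0 : ℝ) (ht0 : 0 < t0)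
    (hA : ∀ N : ℕ, 2 ≤ N → ∀ u : ℝ, 0 ≤ u → u * (N - 1) ≤ 1 → A u → A ((1 + u) / N))
    (h0 : ∀ t : ℝ, 0 ≤ t → t < t0 → A t) :
    ∀ t : ℝ, 0 ≤ t → t < 1 → A t := by
  obtain ⟨M, hM⟩ := exists_nat_gt (1 / t0)
  have hM0 : 0 < M := by
    have : (0 : ℝ) < M := lt_trans (by positivity) hM
    exact_mod_cast this
  have base : ∀ t : ℝ, 0 ≤ t → t * M < 1 → A t := by
    intro t ht h
    apply h0 t ht
    rw [div_lt_iff₀ ht0] at hM
    have hM0' : (0 : ℝ) < M := by exact_mod_cast hM0
    nlinarith
  -- descend from M to 1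
  have key : ∀ k : ℕ, 1 ≤ k → k ≤ M → ∀ t : ℝ, 0 ≤ t → t * k < 1 → A t := by
    intro k hk1 hkM
    induction hd : M - k generalizing k with
    | zero =>
      have : k = M := by omega
      rw [this]; exact base
    | succ d ih =>
      have h1 := ih (k + 1) (by omega) (by omega) (by omega)
      have h2 := engel_step A (k + 1) (by omega) (hA (k + 1) (by omega)) h1
      intro t ht h
      apply h2 t ht
      push_cast
      simpa using h
  intro t ht h
  exact key 1 le_rfl (by omega) t ht (by simpa using h)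

end Pool.Agent.Helper17.Codeg
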