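import Pool.Agent.Helper17.Codeg.Closure

/-!
The exactness theorem for towers of patterns.
-/

set_option autoImplicit false
open Finset

namespace Pool.Agent.Helper17.Codeg

open Classical in
/-- weighted degree of a colour multiset -/
noncomputable def kept {G : Type} [Fintype G] (P : Multiset G → Prop) (w : G → ℝ)
    (M : Multiset G) : ℝ := ∑ Z, if P (Z ::ₘ M) then w Z else 0

def DegOK (r : ℕ) {G : Type} [Fintype G] (P : Multiset G → Prop) (w : G → ℝ) (δ : ℝ) : Prop :=
  ∀ M : Multiset G, M.card = r - 1 → (∀ Y ∈ M, 0 < w Y) → δ ≤ kept P w M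

/-- every element is a completion of a multiset over the support -/
def Reach (r : ℕ) {G : Type} (s : SpSys G) (w : G → ℝ) : Prop :=
  ∀ Z, ∃ M : Multiset G, M.card = r - 1 ∧ (∀ Y ∈ M, 0 < w Y) ∧ s.star M = Z

/-- marginal -/
noncomputable def marg {G : Type} {q : ℕ} [NeZero q] (w' : G × ZMod q → ℝ) (Z : G) : ℝ :=
  ∑ z : ZMod q, w' (Z, z)

lemma sum_marg {G : Type} [Fintype G] {q : ℕ} [NeZero q] (w' : G × ZMod q → ℝ) :
    ∑ Z, marg w' Z = ∑ p, w' p := by
  rw [Fintype.sum_prod_type]; rfl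

lemma sum_shift {q : ℕ} [NeZero q] (f : ZMod q → ℝ) : ∑ z, f (z - 1) = ∑ z, f z :=
  Fintype.sum_equiv (Equiv.subRight 1) _ _ (fun _ => rfl)

lemma kept_ext {G : Type} [Fintype G] (s : SpSys G) (P : Multiset G → Prop)
    (hsp : ∀ T, s.Sp T → P T) (q : ℕ) [NeZero q] (a : Multiset G → ZMod q)
    (w' : G × ZMod q → ℝ) (M' : Multiset (G × ZMod q)) :
    kept (extPat s P q a) w' M' = kept P (marg w') (M'.map Prod.fst) -
      w' (((s.ext q a).star M').1, ((s.ext q a).star M').2 - 1) := by
  classical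
  unfold kept
  rw [Fintype.sum_prod_type]
  have h1 : ∀ Z : G, ∀ z : ZMod q,
      (if extPat s P q a ((Z, z) ::ₘ M') then w' (Z, z) else 0) =
      (if P (Z ::ₘ M'.map Prod.fst) then w' (Z, z) else 0) -
      (if (((s.ext q a).star M').1, ((s.ext q a).star M').2 - 1) = (Z, z) then w' (Z, z)
        else 0) := by
    intro Z z
    have h2 : extPat s P q a ((Z, z) ::ₘ M') ↔ (P (Z ::ₘ M'.map Prod.fst) ∧
        ¬ ((((s.ext q a).star M').1, ((s.ext q a).star M').2 - 1) = (Z, z))) := by
      unfold extPat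
      simp only [Multiset.map_cons, Multiset.sum_cons, s.sp_iff, SpSys.ext, Prod.mk.injEq]
      constructor
      · rintro ⟨h3, h4⟩
        refine ⟨h3, fun h5 => h4 ⟨h5.1.symm, ?_⟩⟩
        rw [← h5.2, ← h5.1]; ring
      · rintro ⟨h3, h4⟩
        refine ⟨h3, fun h5 => h4 ⟨h5.1.symm, ?_⟩⟩
        rw [← h5.1, ← h5.2]; ring
    by_cases h3 : (((s.ext q a).star M').1, ((s.ext q a).star M').2 - 1) = (Z, z)
    · have h4 : P (Z ::ₘ M'.map Prod.fst) := by
        apply hsp
        rw [s.sp_iff]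
        exact (Prod.mk.inj h3).1.symm
      rw [if_neg (fun h => (h2.1 h).2 h3), if_pos h4, if_pos h3, sub_self]
    · rw [if_neg h3, sub_zero]
      by_cases h4 : P (Z ::ₘ M'.map Prod.fst)
      · rw [if_pos h4, if_pos (h2.2 ⟨h4, h3⟩)]
      · rw [if_neg h4, if_neg (fun h => h4 (h2.1 h).1)]
  simp only [h1, Finset.sum_sub_distrib]
  congr 1
  · apply Finset.sum_congr rfl
    intro Z _
    split_ifs with h
    · rfl
    · simp
  · rw [← Fintype.sum_prod_type (f := fun p : G × ZMod q =>
      if (((s.ext q a).star M').1, ((s.ext q a).star M').2 - 1) = p then w' p else 0)]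
    rw [Finset.sum_ite_eq]
    simp

lemma abs_eq_add_two_max (t : ℝ) : |t| = t + 2 * max (-t) 0 := by
  rcases le_total 0 t with h | h
  · rw [abs_of_nonneg h, max_eq_right (by linarith)]; ring
  · rw [abs_of_nonpos h, max_eq_left (by linarith)]; ring

/-- the analytic part of the induction step -/
lemma e_step {G : Type} [Fintype G] {q : ℕ} [NeZero q] (hq : 200 ≤ q)
    (w' : G × ZMod q → ℝ) (E : G → ℝ) (x x' x0 : ℝ) (hx : x * q = 1 + x')
    (hx'0 : 0 ≤ x') (hx'1 : x' ≤ 1 / 200)
    (hH : ∑ Z, (E Z - x * marg w' Z) < 0)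
    (he : ∑ Z, |marg w' Z - 1 / Fintype.card G| ≤
      2 * x0 + 5 * ∑ Z, max (x * marg w' Z - E Z) 0) :
    ∑ p : G × ZMod q, |w' p - 1 / Fintype.card (G × ZMod q)| ≤
      2 * x0 + 5 * ∑ p : G × ZMod q, max (x' * w' p - (E p.1 - w' (p.1, p.2 - 1))) 0 := by
  have hqR : (200 : ℝ) ≤ q := by exact_mod_cast hq
  have hq0 : (0 : ℝ) < q := by linarith
  set H : G → ℝ := fun Z => E Z - x * marg w' Z with hHdef
  set H' : G → ZMod q → ℝ := fun Z z => E Z - w' (Z, z - 1) - x' * w' (Z, z) with hH'def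
  have hN : ∑ Z, max (x * marg w' Z - E Z) 0 = ∑ Z, max (-H Z) 0 := by
    apply Finset.sum_congr rfl; intro Z _; simp only [hHdef]; congr 1; ring
  have hN' : ∑ p : G × ZMod q, max (x' * w' p - (E p.1 - w' (p.1, p.2 - 1))) 0
      = ∑ Z, ∑ z, max (-H' Z z) 0 := by
    rw [Fintype.sum_prod_type]
    apply Finset.sum_congr rfl; intro Z _
    apply Finset.sum_congr rfl; intro z _
    simp only [hH'def]; congr 1; ring
  rw [hN] at he
  rw [hN']
  set N := ∑ Z, max (-H Z) 0 with hNdef
  set N' := ∑ Z, ∑ z, max (-H' Z z) 0 with hN'def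
  -- averaging
  have havg : ∀ Z, ∑ z, H' Z z = q * H Z := by
    intro Z
    simp only [hH'def, hHdef]
    rw [Finset.sum_sub_distrib, Finset.sum_sub_distrib, Finset.sum_const, Finset.card_univ,
      ZMod.card, nsmul_eq_mul, sum_shift (fun z => w' (Z, z)), ← Finset.mul_sum]
    have : (q : ℝ) * (E Z - x * marg w' Z) = q * E Z - (x * q) * marg w' Z := by ring
    rw [this, hx]
    unfold marg
    ring
  have hNle : (q : ℝ) * N ≤ N' := by
    rw [hNdef, hN'def, Finset.mul_sum]
    apply Finset.sum_le_sum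
    intro Z _
    have h1 : ∑ z, -H' Z z ≤ ∑ z, max (-H' Z z) 0 :=
      Finset.sum_le_sum (fun z _ => le_max_left _ _)
    have h2 : (0 : ℝ) ≤ ∑ z, max (-H' Z z) 0 :=
      Finset.sum_nonneg (fun z _ => le_max_right _ _)
    rw [Finset.sum_neg_distrib, havg Z] at h1
    rcases le_total (-H Z) 0 with h3 | h3
    · rw [max_eq_right h3, mul_zero]; exact h2
    · rw [max_eq_left h3]; linarith
  have hN0 : 0 ≤ N := Finset.sum_nonneg (fun Z _ => le_max_right _ _)
  -- g
  set g : G → ZMod q → ℝ := fun Z z => w' (Z, z) - marg w' Z / q with hg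
  have hgH : ∀ Z z, H' Z z - H Z = - g Z (z - 1) - x' * g Z z := by
    intro Z z
    simp only [hH'def, hHdef, hg]
    have : x = (1 + x') / q := by rw [eq_div_iff hq0.ne', hx]
    rw [this]
    ring
  have hg1 : (1 - x') * ∑ Z, ∑ z, |g Z z| ≤ ∑ Z, ∑ z, |H' Z z - H Z| := by
    rw [Finset.mul_sum]
    apply Finset.sum_le_sum
    intro Z _
    have h1 : ∑ z, |g Z (z - 1)| ≤ ∑ z, (|H' Z z - H Z| + x' * |g Z z|) := by
      apply Finset.sum_le_sum
      intro z _
      have h2 : g Z (z - 1) = - (H' Z z - H Z) - x' * g Z z := by rw [hgH]; ring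
      calc |g Z (z - 1)| = |- (H' Z z - H Z) - x' * g Z z| := by rw [← h2]
        _ ≤ |- (H' Z z - H Z)| + |x' * g Z z| := abs_sub _ _
        _ = _ := by rw [abs_neg, abs_mul, abs_of_nonneg hx'0]
    rw [sum_shift (fun z => |g Z z|), Finset.sum_add_distrib, ← Finset.mul_sum] at h1
    linarith
  have hsumH' : ∑ Z, ∑ z, H' Z z = q * ∑ Z, H Z := by
    rw [Finset.mul_sum]
    exact Finset.sum_congr rfl (fun Z _ => havg Z)
  have hg2 : ∑ Z, ∑ z, |H' Z z - H Z| ≤ 4 * N' := by
    have h1 : ∑ Z, ∑ z, |H' Z z - H Z| ≤ ∑ Z, ∑ z, (|H' Z z| + |H Z|) := by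
      apply Finset.sum_le_sum; intro Z _
      apply Finset.sum_le_sum; intro z _
      exact abs_sub _ _
    have h2 : ∑ Z, ∑ z : ZMod q, (|H' Z z| + |H Z|) = ∑ Z, ∑ z, |H' Z z| + q * ∑ Z, |H Z| := by
      rw [Finset.mul_sum, ← Finset.sum_add_distrib]
      apply Finset.sum_congr rfl; intro Z _
      rw [Finset.sum_add_distrib, Finset.sum_const, Finset.card_univ, ZMod.card, nsmul_eq_mul]
    have h3 : ∑ Z, ∑ z, |H' Z z| = q * ∑ Z, H Z + 2 * N' := by
      rw [← hsumH', hN'def, Finset.mul_sum, ← Finset.sum_add_distrib]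
      apply Finset.sum_congr rfl; intro Z _
      rw [Finset.mul_sum, ← Finset.sum_add_distrib]
      apply Finset.sum_congr rfl; intro z _
      exact abs_eq_add_two_max _
    have h4 : ∑ Z, |H Z| = ∑ Z, H Z + 2 * N := by
      rw [hNdef, Finset.mul_sum, ← Finset.sum_add_distrib]
      apply Finset.sum_congr rfl; intro Z _
      exact abs_eq_add_two_max _
    have h5 : (q : ℝ) * ∑ Z, H Z < 0 := mul_neg_of_pos_of_neg hq0 hH
    rw [h2, h3, h4] at h1
    nlinarith
  -- e'
  have he' : ∑ p : G × ZMod q, |w' p - 1 / Fintype.card (G × ZMod q)| ≤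
      ∑ Z, ∑ z, |g Z z| + ∑ Z, |marg w' Z - 1 / Fintype.card G| := by
    rw [Fintype.sum_prod_type, ← Finset.sum_add_distrib]
    apply Finset.sum_le_sum
    intro Z _
    have h1 : ∀ z, |w' (Z, z) - 1 / (Fintype.card (G × ZMod q) : ℝ)| ≤
        |g Z z| + |marg w' Z - 1 / Fintype.card G| / q := by
      intro z
      have h2 : w' (Z, z) - 1 / (Fintype.card (G × ZMod q) : ℝ) =
          g Z z + (marg w' Z - 1 / Fintype.card G) / q := by
        rw [Fintype.card_prod, ZMod.card]
        push_cast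
        simp only [hg]
        rw [sub_div, div_div]
        ring
      rw [h2]
      refine (abs_add_le _ _).trans ?_
      rw [abs_div, abs_of_pos hq0]
    refine (Finset.sum_le_sum (fun z _ => h1 z)).trans ?_
    rw [Finset.sum_add_distrib, Finset.sum_const, Finset.card_univ, ZMod.card, nsmul_eq_mul,
      mul_div_cancel₀ _ hq0.ne']
  have hfin : ∑ Z, ∑ z, |g Z z| ≤ 4.1 * N' := by
    have h0 : 0 ≤ ∑ Z, ∑ z, |g Z z| :=
      Finset.sum_nonneg (fun Z _ => Finset.sum_nonneg (fun z _ => abs_nonneg _))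
    nlinarith
  have h200 : 200 * N ≤ N' := le_trans (mul_le_mul_of_nonneg_right hqR hN0) hNle
  linarith

lemma abs_sum_sub_le {G : Type} [Fintype G] (w : G → ℝ) (A : Finset G) :
    |∑ Z ∈ A, w Z - A.card / (Fintype.card G : ℝ)| ≤ ∑ Z, |w Z - 1 / Fintype.card G| := by
  have h1 : ∑ Z ∈ A, w Z - A.card / (Fintype.card G : ℝ)
      = ∑ Z ∈ A, (w Z - 1 / Fintype.card G) := by
    rw [Finset.sum_sub_distrib, Finset.sum_const, nsmul_eq_mul]
    ring
  rw [h1]
  refine (Finset.abs_sum_le_sum_abs _ _).trans ?_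
  exact Finset.sum_le_sum_of_subset_of_nonneg (Finset.subset_univ _)
    (fun _ _ _ => abs_nonneg _)

/-- propagation of reachability one level up -/
lemma reach_step {r : ℕ} (hr : 3 ≤ r) {G : Type} [Fintype G] [Nonempty G] (s : SpSys G) {q : ℕ}
    [NeZero q] (a : Multiset G → ZMod q) (ha : TwistOK r s q a)
    (w' : G × ZMod q → ℝ) (hw0 : ∀ p, 0 ≤ w' p) (hw1 : ∑ p, w' p = 1)
    (E : G → ℝ) (x x' : ℝ) (hx : x * q = 1 + x') (hx'1 : x' ≤ 1 / 200)
    (hE0 : ∀ Z, 0 ≤ E Z)
    (htest' : ∀ M' : Multiset (G × ZMod q), M'.card = r - 1 → (∀ Y ∈ M', 0 < w' Y) →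
      0 ≤ E ((s.ext q a).star M').1 -
        w' (((s.ext q a).star M').1, ((s.ext q a).star M').2 - 1))
    (hEsum : ∑ Z, E Z < x)
    (he : ∑ Z, |marg w' Z - 1 / Fintype.card G| ≤ 7 / 200) :
    Reach r (s.ext q a) w' := by
  classical
  set m := Fintype.card G with hm
  have hm0 : 0 < m := Fintype.card_pos
  have hmR : (0 : ℝ) < m := by exact_mod_cast hm0
  have hq0 : 0 < q := Nat.pos_of_ne_zero (NeZero.ne q)
  have hqR : (0 : ℝ) < q := by exact_mod_cast hq0
  by_contra hcon
  set R' : G × ZMod q → Prop := fun p => ∃ M : Multiset (G × ZMod q), M.card = r - 1 ∧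
    (∀ Y ∈ M, 0 < w' Y) ∧ (s.ext q a).star M = p with hR'
  have hcon2 : ∃ p, ¬ R' p := by
    by_contra h
    push Not at h
    exact hcon h
  obtain ⟨⟨Z0, z0⟩, hZ0⟩ := hcon2
  have hmarg0 : ∀ Z, 0 ≤ marg w' Z := fun Z => Finset.sum_nonneg (fun z _ => hw0 _)
  have hlift : ∀ Y, 0 < marg w' Y → ∃ z, 0 < w' (Y, z) := by
    intro Y hY
    by_contra h
    push Not at h
    have : marg w' Y ≤ 0 := Finset.sum_nonpos (fun z _ => h z)
    linarith
  let φ : G → ZMod q := fun Y => if h : 0 < marg w' Y then (hlift Y h).choose else 0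
  have hφ : ∀ Y, 0 < marg w' Y → 0 < w' (Y, φ Y) := by
    intro Y h
    simp only [φ]
    rw [dif_pos h]
    exact (hlift Y h).choose_spec
  have hsum1 : ∑ Z, marg w' Z = 1 := by rw [sum_marg, hw1]
  -- three-element completions
  have hcomp : ∀ (X Y X0 Z : G) (x y x0 z : ZMod q), 0 < w' (X, x) → 0 < w' (Y, y) →
      0 < w' (X0, x0) → s.Sp (X ::ₘ Y ::ₘ Z ::ₘ Multiset.replicate (r - 3) X0) →
      x + y + z + (r - 3) • x0 = a (X ::ₘ Y ::ₘ Z ::ₘ Multiset.replicate (r - 3) X0) + 1 →
      R' (Z, z) := by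
    intro X Y X0 Z x y x0 z hX hY hX0 hSp hsum
    refine ⟨_, ?_, ?_, ext_star_eq s q a (r - 3) X Y X0 Z x y x0 z hSp hsum⟩
    · simp only [Multiset.card_cons, Multiset.card_replicate]; omega
    · intro W hW
      simp only [Multiset.mem_cons, Multiset.mem_replicate] at hW
      rcases hW with h | h | h
      · rw [h]; exact hX
      · rw [h]; exact hY
      · rw [h.2]; exact hX0
  -- U is small
  set U : Finset G := univ.filter (fun Z => ∃ z, ¬ R' (Z, z)) with hU
  have hUsmall : 20 * U.card ≤ m := by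
    by_contra hbig
    push Not at hbig
    let ξ : G → Option (ZMod q) := fun X => if 0 < marg w' X then some (φ X) else none
    let ζ : G → Option (ZMod q) := fun Z =>
      if h : ∃ z, ¬ R' (Z, z) then some h.choose else none
    have hξn : 20 * (univ.filter (fun X => ξ X = none)).card ≤ Fintype.card G := by
      set A := univ.filter (fun X => ξ X = none) with hA
      have hA0 : ∀ X ∈ A, marg w' X = 0 := by
        intro X hX
        rw [hA, Finset.mem_filter] at hX
        by_contra h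
        have h1 : 0 < marg w' X := lt_of_le_of_ne (hmarg0 X) (Ne.symm h)
        have h2 := hX.2
        simp only [ξ] at h2
        rw [if_pos h1] at h2
        exact absurd h2 (by simp)
      have h1 := abs_sum_sub_le (marg w') A
      rw [Finset.sum_eq_zero hA0, zero_sub, abs_neg, abs_of_nonneg (by positivity)] at h1
      have h2 : (A.card : ℝ) / m ≤ 7 / 200 := h1.trans he
      rw [div_le_iff₀ hmR] at h2
      have h3 : (20 : ℝ) * A.card ≤ m := by nlinarith
      exact_mod_cast h3
    have hζn : Fintype.card G < 20 * (univ.filter (fun Z => ζ Z ≠ none)).card := by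
      have : (univ.filter (fun Z => ζ Z ≠ none)) = U := by
        ext Z
        simp only [ζ, hU, mem_filter, mem_univ, true_and]
        split_ifs with h
        · simp [h]
        · simp [h]
      rw [this]; exact hbig
    obtain ⟨X, Y, X0, Z, x1, y1, x01, z1, hX, hY, hX0, hZ, hSp, hsum⟩ := ha ξ ζ hξn hζn
    have hξs : ∀ X x, ξ X = some x → 0 < w' (X, x) := by
      intro X x h
      simp only [ξ] at h
      split_ifs at h with h1
      simp only [Option.some.injEq] at h
      rw [← h]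
      exact hφ X h1
    have hR := hcomp X Y X0 Z x1 y1 x01 z1 (hξs _ _ hX) (hξs _ _ hY) (hξs _ _ hX0) hSp hsum
    simp only [ζ] at hZ
    split_ifs at hZ with h1
    simp only [Option.some.injEq] at hZ
    have h2 := h1.choose_spec
    rw [hZ] at h2
    exact h2 hR
  -- the present element X0
  have hX0ex : ∃ X0, 0 < marg w' X0 := by
    by_contra h
    push Not at h
    have : ∑ Z, marg w' Z ≤ 0 := Finset.sum_nonpos (fun Z _ => h Z)
    linarith
  obtain ⟨X0, hX0⟩ := hX0ex
  let A : G → Finset (ZMod q) := fun X => univ.filter (fun x => 0 < w' (X, x))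
  have hAq : ∀ X, (A X).card ≤ q := by
    intro X
    have := Finset.card_le_univ (A X)
    rwa [ZMod.card] at this
  let σ : G → G := fun X => s.star (X ::ₘ Z0 ::ₘ Multiset.replicate (r - 3) X0)
  have hσ : ∀ X, σ (σ X) = X := fun X => s.star_star X Z0 _
  have hpair : ∀ X, (A X).card + (A (σ X)).card ≤ q := by
    intro X
    by_contra hbig
    push Not at hbig
    set t : ZMod q := a (X ::ₘ σ X ::ₘ Z0 ::ₘ Multiset.replicate (r - 3) X0) + 1 - z0
      - (r - 3) • φ X0 with ht
    have h1 : ((A X) ∩ ((A (σ X)).image (fun y => t - y))).Nonempty := by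
      apply Finset.inter_nonempty_of_card_lt_card_add_card (Finset.subset_univ _)
        (Finset.subset_univ _)
      rw [Finset.card_univ, ZMod.card,
        Finset.card_image_of_injective _ (fun y1 y2 h => by simpa using h)]
      exact hbig
    obtain ⟨x1, hx1⟩ := h1
    rw [Finset.mem_inter] at hx1
    obtain ⟨y1, hy1, hxy⟩ := Finset.mem_image.1 hx1.2
    apply hZ0
    refine hcomp X (σ X) X0 Z0 x1 y1 (φ X0) z0 ?_ ?_ (hφ X0 hX0) ?_ ?_
    · exact (Finset.mem_filter.1 hx1.1).2
    · exact (Finset.mem_filter.1 hy1).2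
    · rw [Multiset.cons_swap, s.sp_iff]
    · rw [← hxy, ht]; ring
  set Small : Finset G := univ.filter (fun X => 2 * (A X).card ≤ q) with hSmall
  have hSmallcard : m ≤ 2 * Small.card := by
    have h1 : (univ : Finset G) ⊆ Small ∪ univ.filter (fun X => σ X ∈ Small) := by
      intro X _
      have := hpair X
      simp only [hSmall, mem_union, mem_filter, mem_univ, true_and]
      omega
    have h2 : (univ.filter (fun X => σ X ∈ Small)).card ≤ Small.card := by
      apply Finset.card_le_card_of_injOn σ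
      · intro X hX
        simpa using hX
      · intro X _ Y _ h
        rw [← hσ X, ← hσ Y, h]
    have h3 := (Finset.card_le_card h1).trans (Finset.card_union_le _ _)
    rw [Finset.card_univ, ← hm] at h3
    omega
  -- pointwise bound
  have hpt : ∀ Z, marg w' Z + (if Z ∈ Small then marg w' Z else 0)
      - 2 * (if Z ∈ U then marg w' Z else 0) ≤ q * E Z := by
    intro Z
    have hZ0' := hmarg0 Z
    by_cases hZU : Z ∈ U
    · rw [if_pos hZU]
      have : 0 ≤ (q : ℝ) * E Z := mul_nonneg hqR.le (hE0 Z)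
      split_ifs <;> linarith
    · rw [if_neg hZU]
      have hall : ∀ z, R' (Z, z) := by
        intro z
        by_contra h
        apply hZU
        rw [hU, Finset.mem_filter]
        exact ⟨Finset.mem_univ _, z, h⟩
      have hEw : ∀ z, w' (Z, z) ≤ E Z := by
        intro z
        obtain ⟨M', hM', hM'w, hstar⟩ := hall (z + 1)
        have := htest' M' hM' hM'w
        rw [hstar] at this
        simp only [add_sub_cancel_right] at this
        linarith
      have hmargle : marg w' Z ≤ (A Z).card * E Z := by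
        have h1 : marg w' Z = ∑ z ∈ A Z, w' (Z, z) := by
          unfold marg
          symm
          apply Finset.sum_subset (Finset.subset_univ _)
          intro z _ hz
          have : ¬ 0 < w' (Z, z) := by
            intro h
            exact hz (Finset.mem_filter.2 ⟨Finset.mem_univ _, h⟩)
          exact le_antisymm (not_lt.1 this) (hw0 _)
        rw [h1, ← nsmul_eq_mul]
        exact Finset.sum_le_card_nsmul _ _ _ (fun z _ => hEw z)
      have hE := hE0 Z
      by_cases hZS : Z ∈ Small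
      · rw [if_pos hZS]
        have h2 : 2 * (A Z).card ≤ q := (Finset.mem_filter.1 hZS).2
        have h3 : (2 : ℝ) * (A Z).card ≤ q := by exact_mod_cast h2
        nlinarith
      · rw [if_neg hZS]
        have h3 : ((A Z).card : ℝ) ≤ q := by exact_mod_cast hAq Z
        nlinarith
  have htot := Finset.sum_le_sum (fun Z (_ : Z ∈ (univ : Finset G)) => hpt Z)
  rw [Finset.sum_sub_distrib, Finset.sum_add_distrib, ← Finset.mul_sum, ← Finset.mul_sum,
    hsum1, Finset.sum_ite_mem, Finset.sum_ite_mem, Finset.univ_inter, Finset.univ_inter] at htot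
  have hb1 := abs_le.1 ((abs_sum_sub_le (marg w') Small).trans he)
  have hb2 := abs_le.1 ((abs_sum_sub_le (marg w') U).trans he)
  have hc1 : (1 : ℝ) / 2 ≤ (Small.card : ℝ) / (Fintype.card G : ℝ) := by
    rw [le_div_iff₀ hmR]
    have : (m : ℝ) ≤ 2 * Small.card := by exact_mod_cast hSmallcard
    linarith
  have hc2 : (U.card : ℝ) / (Fintype.card G : ℝ) ≤ 1 / 20 := by
    rw [div_le_iff₀ hmR]
    have : (20 : ℝ) * U.card ≤ m := by exact_mod_cast hUsmall
    linarith
  have hqE : (q : ℝ) * ∑ Z, E Z < 1 + 1 / 200 := by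
    have : (q : ℝ) * ∑ Z, E Z < q * x := mul_lt_mul_of_pos_left hEsum hqR
    linarith
  linarith

lemma sum_step {G : Type} [Fintype G] {q : ℕ} [NeZero q] (w' : G × ZMod q → ℝ) (E : G → ℝ)
    (x x' : ℝ) (hx : x * q = 1 + x') :
    ∑ p : G × ZMod q, (E p.1 - w' (p.1, p.2 - 1) - x' * w' p)
      = q * ∑ Z, (E Z - x * marg w' Z) := by
  rw [Fintype.sum_prod_type, Finset.mul_sum]
  apply Finset.sum_congr rfl
  intro Z _
  dsimp only
  rw [Finset.sum_sub_distrib, Finset.sum_sub_distrib, Finset.sum_const, Finset.card_univ,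
    ZMod.card, nsmul_eq_mul, sum_shift (fun z => w' (Z, z)), ← Finset.mul_sum]
  have : (q : ℝ) * (E Z - x * marg w' Z) = q * E Z - (x * q) * marg w' Z := by ring
  rw [this, hx]
  unfold marg
  ring

/-- `Good`: the inductive package of properties of a level of the tower. -/
structure Good (r : ℕ) (m0 x0 : ℝ) {G : Type} [Fintype G] (s : SpSys G)
    (P : Multiset G → Prop) (x K : ℝ) : Prop where
  sp_P : ∀ T, s.Sp T → P T
  ex : ∃ E : (G → ℝ) → ℝ → G → ℝ,
    (∀ w δ M, kept P w M = E w δ (s.star M) + δ) ∧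
    (∀ w δ, ∑ Z, (E w δ Z - x * w Z) = K * ((1 - x0) * ∑ Z, w Z - m0 * δ)) ∧
    (∀ w δ, (∀ Z, 0 ≤ w Z) → ∑ Z, w Z = 1 → DegOK r P w δ →
      ∑ Z, (E w δ Z - x * w Z) < 0 →
      Reach r s w ∧ ∑ Z, |w Z - 1 / Fintype.card G| ≤
        2 * x0 + 5 * ∑ Z, max (x * w Z - E w δ Z) 0)

theorem Good.step {r : ℕ} (hr : 3 ≤ r) {m0 x0 : ℝ} {G : Type} [Fintype G] [Nonempty G]
    {s : SpSys G} {P : Multiset G → Prop} {x K : ℝ} (h : Good r m0 x0 s P x K)
    {q : ℕ} [NeZero q] (hq : 200 ≤ q) {a : Multiset G → ZMod q} (ha : TwistOK r s q a)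
    {x' : ℝ} (hx : x * q = 1 + x') (hx'0 : 0 ≤ x') (hx'1 : x' ≤ 1 / 200) (hx1 : x ≤ 1 / 200)
    (hx0 : x0 ≤ 1 / 200) :
    Good r m0 x0 (s.ext q a) (extPat s P q a) x' (K * q) := by
  classical
  have hqR : (200 : ℝ) ≤ q := by exact_mod_cast hq
  obtain ⟨hspP, E, hE1, hE2, hE3⟩ := h
  refine ⟨?_, fun w' δ p => E (marg w') δ p.1 - w' (p.1, p.2 - 1), ?_, ?_, ?_⟩
  · intro T hT
    refine ⟨hspP _ hT.1, fun h1 => ?_⟩
    have h2 := hT.2
    rw [h1.2] at h2
    have h3 : (1 : ZMod q) = 0 := by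
      have := h2
      rwa [left_eq_add] at this
    have : Fact (1 < q) := ⟨by omega⟩
    exact one_ne_zero h3
  · intro w' δ M'
    rw [kept_ext s P hspP, hE1 (marg w') δ]
    simp only [SpSys.ext]
    ring
  · intro w' δ
    have h1 := hE2 (marg w') δ
    rw [sum_marg] at h1
    have h2 : ∑ p : G × ZMod q, (E (marg w') δ p.1 - w' (p.1, p.2 - 1) - x' * w' p)
        = q * ∑ Z, (E (marg w') δ Z - x * marg w' Z) := by
      exact sum_step w' (E (marg w') δ) x x' hx
    rw [h2, h1]
    ring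
  · intro w' δ hw0 hw1 hdeg hneg
    have hw0m : ∀ Z, 0 ≤ marg w' Z := fun Z => Finset.sum_nonneg (fun z _ => hw0 _)
    have hw1m : ∑ Z, marg w' Z = 1 := by rw [sum_marg, hw1]
    have hsumrel : ∑ p : G × ZMod q, (E (marg w') δ p.1 - w' (p.1, p.2 - 1) - x' * w' p)
        = q * ∑ Z, (E (marg w') δ Z - x * marg w' Z) := by
      exact sum_step w' (E (marg w') δ) x x' hx
    have hnegm : ∑ Z, (E (marg w') δ Z - x * marg w' Z) < 0 := by
      rw [hsumrel] at hneg
      by_contra hge
      push Not at hge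
      have : 0 ≤ (q : ℝ) * ∑ Z, (E (marg w') δ Z - x * marg w' Z) :=
        mul_nonneg (by linarith) hge
      linarith
    have hdegm : DegOK r P (marg w') δ := by
      intro M hM hMw
      have hlift : ∀ Y, 0 < marg w' Y → ∃ z, 0 < w' (Y, z) := by
        intro Y hY
        by_contra h
        push Not at h
        have : marg w' Y ≤ 0 := Finset.sum_nonpos (fun z _ => h z)
        linarith
      let φ : G → ZMod q := fun Y => if h : 0 < marg w' Y then (hlift Y h).choose else 0
      have hφ : ∀ Y, 0 < marg w' Y → 0 < w' (Y, φ Y) := by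
        intro Y h
        simp only [φ]
        rw [dif_pos h]
        exact (hlift Y h).choose_spec
      have h1 := hdeg (M.map (fun Y => (Y, φ Y))) (by rw [Multiset.card_map, hM]) (by
        intro Y' hY'
        obtain ⟨Y, hY, rfl⟩ := Multiset.mem_map.1 hY'
        exact hφ Y (hMw Y hY))
      rw [kept_ext s P hspP] at h1
      have h2 : (M.map (fun Y => (Y, φ Y))).map Prod.fst = M := by
        rw [Multiset.map_map]
        exact Multiset.map_id M
      rw [h2] at h1
      have h3 := hw0 (((s.ext q a).star (M.map (fun Y => (Y, φ Y)))).1,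
        ((s.ext q a).star (M.map (fun Y => (Y, φ Y)))).2 - 1)
      linarith
    obtain ⟨hreach, he⟩ := hE3 (marg w') δ hw0m hw1m hdegm hnegm
    have hEnn : ∀ Z, 0 ≤ E (marg w') δ Z := by
      intro Z
      obtain ⟨M, hM, hMw, rfl⟩ := hreach Z
      have h1 := hdegm M hM hMw
      rw [hE1 (marg w') δ] at h1
      linarith
    have hEsum : ∑ Z, E (marg w') δ Z < x := by
      rw [Finset.sum_sub_distrib, ← Finset.mul_sum, hw1m] at hnegm
      linarith
    have hx0' : 0 ≤ x := by
      by_contra hlt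
      push Not at hlt
      nlinarith
    have hNx : ∑ Z, max (x * marg w' Z - E (marg w') δ Z) 0 ≤ x := by
      calc ∑ Z, max (x * marg w' Z - E (marg w') δ Z) 0 ≤ ∑ Z, x * marg w' Z := by
            apply Finset.sum_le_sum
            intro Z _
            apply max_le
            · linarith [hEnn Z]
            · exact mul_nonneg hx0' (hw0m Z)
        _ = x := by rw [← Finset.mul_sum, hw1m, mul_one]
    refine ⟨?_, ?_⟩
    · apply reach_step hr s a ha w' hw0 hw1 (E (marg w') δ) x x' hx hx'1 hEnn _ hEsum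
      · linarith
      · intro M' hM' hM'w
        have h1 := hdeg M' hM' hM'w
        rw [kept_ext s P hspP, hE1 (marg w') δ] at h1
        have h2 : s.star (M'.map Prod.fst) = ((s.ext q a).star M').1 := rfl
        rw [h2] at h1
        linarith
    · exact e_step hq w' (E (marg w') δ) x x' x0 hx hx'0 hx'1 hnegm he

/-- base level -/
theorem Good.base {r : ℕ} (hr : 3 ≤ r) {x0 : ℝ} {G : Type} [Fintype G] [Nonempty G]
    {s : SpSys G} (hs : Full r s) (hx01 : x0 < 1) :
    Good r (Fintype.card G) x0 s s.Sp x0 1 := by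
  classical
  have hkept : ∀ (w : G → ℝ) M, kept s.Sp w M = w (s.star M) := by
    intro w M
    unfold kept
    simp only [s.sp_iff]
    rw [Finset.sum_ite_eq']
    simp
  have hm0 : (0 : ℝ) < Fintype.card G := by exact_mod_cast Fintype.card_pos
  refine ⟨fun T hT => hT, fun w δ Z => w Z - δ, ?_, ?_, ?_⟩
  · intro w δ M
    rw [hkept]; ring
  · intro w δ
    rw [Finset.sum_sub_distrib, Finset.sum_sub_distrib, Finset.sum_const, Finset.card_univ,
      nsmul_eq_mul, ← Finset.mul_sum]
    ring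
  · intro w δ hw0 hw1 hdeg hneg
    rw [Finset.sum_sub_distrib, Finset.sum_sub_distrib, Finset.sum_const, Finset.card_univ,
      nsmul_eq_mul, ← Finset.mul_sum, hw1] at hneg
    have hδ : 0 < δ := by
      by_contra h
      push Not at h
      have : (Fintype.card G : ℝ) * δ ≤ 0 := mul_nonpos_of_nonneg_of_nonpos hm0.le h
      linarith
    have hsupp : ∃ Z, 0 < w Z := by
      by_contra h
      push Not at h
      have : ∑ Z, w Z ≤ 0 := Finset.sum_nonpos (fun Z _ => h Z)
      linarith
    have hall : ∀ Z, 0 < w Z := by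
      apply hs {Z | 0 < w Z} hsupp
      intro M hM hMw
      have h1 := hdeg M hM hMw
      rw [hkept] at h1
      exact lt_of_lt_of_le hδ h1
    have hreach : Reach r s w := by
      intro Z
      refine ⟨s.star (Z ::ₘ Multiset.replicate (r - 2) Z) ::ₘ Multiset.replicate (r - 2) Z,
        ?_, fun Y _ => hall Y, s.star_star' Z _⟩
      simp only [Multiset.card_cons, Multiset.card_replicate]; omega
    refine ⟨hreach, ?_⟩
    have hwd : ∀ Z, δ ≤ w Z := by
      intro Z
      obtain ⟨M, hM, hMw, rfl⟩ := hreach Z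
      have h1 := hdeg M hM hMw
      rwa [hkept] at h1
    have hmd : (Fintype.card G : ℝ) * δ ≤ 1 := by
      rw [← hw1, ← nsmul_eq_mul]
      have := Finset.card_nsmul_le_sum (univ : Finset G) w δ (fun Z _ => hwd Z)
      rwa [Finset.card_univ] at this
    have h1 : ∑ Z, |w Z - 1 / (Fintype.card G : ℝ)| ≤
        ∑ Z, ((w Z - δ) + (1 / (Fintype.card G : ℝ) - δ)) := by
      apply Finset.sum_le_sum
      intro Z _
      have h2 : δ ≤ 1 / (Fintype.card G : ℝ) := by
        rw [le_div_iff₀ hm0]; linarith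
      rw [abs_le]
      constructor <;> linarith [hwd Z]
    rw [Finset.sum_add_distrib, Finset.sum_sub_distrib, hw1, Finset.sum_const, Finset.card_univ,
      nsmul_eq_mul, Finset.sum_const, Finset.card_univ, nsmul_eq_mul, mul_sub,
      mul_one_div_cancel hm0.ne'] at h1
    have h3 : (0 : ℝ) ≤ ∑ Z, max (x0 * w Z - (w Z - δ)) 0 :=
      Finset.sum_nonneg (fun Z _ => le_max_right _ _)
    linarith

/-- exactness -/
theorem Good.exact {r : ℕ} {m0 x0 : ℝ} {G : Type} [Fintype G] {s : SpSys G}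
    {P : Multiset G → Prop} {x K : ℝ} (h : Good r m0 x0 s P x K) (hx : 0 ≤ x) (hK : 0 < K)
    (w : G → ℝ) (δ : ℝ) (hw0 : ∀ Z, 0 ≤ w Z) (hw1 : ∑ Z, w Z = 1) (hdeg : DegOK r P w δ) :
    m0 * δ ≤ 1 - x0 + x / K := by
  obtain ⟨_, E, hE1, hE2, hE3⟩ := h
  have hxK : 0 ≤ x / K := div_nonneg hx hK.le
  have h2 := hE2 w δ
  rw [hw1, mul_one] at h2
  rcases lt_or_ge (∑ Z, (E w δ Z - x * w Z)) 0 with hneg | hneg
  · obtain ⟨hreach, _⟩ := hE3 w δ hw0 hw1 hdeg hneg
    have hEnn : ∀ Z, 0 ≤ E w δ Z := by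
      intro Z
      obtain ⟨M, hM, hMw, rfl⟩ := hreach Z
      have h1 := hdeg M hM hMw
      rw [hE1 w δ] at h1
      linarith
    have h3 : -x ≤ ∑ Z, (E w δ Z - x * w Z) := by
      rw [Finset.sum_sub_distrib, ← Finset.mul_sum, hw1]
      have : 0 ≤ ∑ Z, E w δ Z := Finset.sum_nonneg (fun Z _ => hEnn Z)
      linarith
    rw [h2] at h3
    have h4 : -(x / K) ≤ (1 - x0) - m0 * δ := by
      rw [← neg_div, div_le_iff₀ hK]
      linarith
    linarith
  · rw [h2] at hneg
    have : 0 ≤ (1 - x0) - m0 * δ := by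
      by_contra h
      push Not at h
      have := mul_neg_of_pos_of_neg hK h
      linarith
    linarith

end Pool.Agent.Helper17.Codeg
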