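import Pool.Agent.Helper17.Codeg.Tower

/-!
From towers to codegree densities.
-/

set_option autoImplicit false
open Finset

namespace Pool.Agent.Helper17.Codeg

lemma exists_finset_map {n : ℕ} {γ : Type} [DecidableEq γ] (c : Fin n → γ) (M : Multiset γ) :
    (∀ Z ∈ M, M.card ≤ (univ.filter (fun v => c v = Z)).card) →
    ∃ S : Finset (Fin n), S.val.map c = M := by
  induction M using Multiset.induction_on with
  | empty => intro _; exact ⟨∅, rfl⟩
  | cons Z M ih =>
    intro h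
    obtain ⟨S, hS⟩ := ih (fun Y hY => le_trans (by simp)
      (h Y (Multiset.mem_cons_of_mem hY)))
    have hcard : S.card = M.card := by rw [← hS, Multiset.card_map]; rfl
    have h1 := h Z (Multiset.mem_cons_self Z M)
    rw [Multiset.card_cons] at h1
    have h2 : (univ.filter (fun v => c v = Z) \ S).Nonempty := by
      rw [← Finset.card_pos]
      have := Finset.le_card_sdiff S (univ.filter (fun v => c v = Z))
      omega
    obtain ⟨v, hv⟩ := h2
    rw [Finset.mem_sdiff, Finset.mem_filter] at hv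
    refine ⟨insert v S, ?_⟩
    rw [Finset.insert_val_of_notMem hv.2, Multiset.map_cons, hS, hv.1.2]

lemma map_insert_val {n : ℕ} {γ : Type} (c : Fin n → γ) (S : Finset (Fin n)) (v : Fin n)
    (hv : v ∉ S) : (insert v S).val.map c = c v ::ₘ S.val.map c := by
  rw [Finset.insert_val_of_notMem hv, Multiset.map_cons]

lemma card_filter_mem_eq_sum {n : ℕ} {γ : Type} [Fintype γ] [DecidableEq γ] (c : Fin n → γ)
    (A : Finset γ) : (univ.filter (fun v => c v ∈ A)).card
      = ∑ Z ∈ A, (univ.filter (fun v => c v = Z)).card := by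
  rw [Finset.card_eq_sum_card_fiberwise (f := c) (t := A)]
  · apply Finset.sum_congr rfl
    intro Z hZ
    congr 1
    ext v
    simp only [mem_filter, mem_univ, true_and, and_iff_right_iff_imp]
    rintro rfl
    exact hZ
  · intro v hv
    simpa using hv

/-- lower bound: pattern edges that are not special -/
lemma glue_lower {r : ℕ} (hr : 3 ≤ r) {γ : Type} [Fintype γ] [Nonempty γ] (s : SpSys γ)
    (P : Multiset γ → Prop) (ν : ℝ)
    (hcount : ∀ M, ν ≤ kept P (fun _ => 1) M) (n : ℕ) :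
    ∃ G : Finset (Finset (Fin n)), (∀ e ∈ G, e.card = r) ∧
      (∃ c : Fin n → γ, ∀ e ∈ G, P (e.val.map c) ∧ ¬ s.Sp (e.val.map c)) ∧
      ∀ S : Finset (Fin n), S.card = r - 1 →
        (ν - 1) / Fintype.card γ * n - Fintype.card γ - r ≤ (nbr G S).card := by
  classical
  set m := Fintype.card γ with hm
  have hm0 : 0 < m := Fintype.card_pos
  have hmR : (0 : ℝ) < m := by exact_mod_cast hm0
  obtain ⟨c, hc⟩ := exists_balanced n γ
  rw [← hm] at hc
  set G : Finset (Finset (Fin n)) := univ.filter (fun e => e.card = r ∧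
    P (e.val.map c) ∧ ¬ s.Sp (e.val.map c)) with hG
  refine ⟨G, fun e he => (Finset.mem_filter.1 he).2.1,
    ⟨c, fun e he => (Finset.mem_filter.1 he).2.2⟩, ?_⟩
  intro S hS
  set M := S.val.map c with hM
  set A : Finset γ := univ.filter (fun Z => P (Z ::ₘ M) ∧ ¬ s.Sp (Z ::ₘ M)) with hA
  have hAcard : ν - 1 ≤ (A.card : ℝ) := by
    have h1 : kept P (fun _ => 1) M = ((univ.filter (fun Z => P (Z ::ₘ M))).card : ℝ) := by
      unfold kept
      rw [Finset.sum_boole]
    have h2 : (univ.filter (fun Z => P (Z ::ₘ M))) ⊆ insert (s.star M) A := by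
      intro Z hZ
      rw [Finset.mem_insert]
      by_cases h : Z = s.star M
      · left; exact h
      · right
        rw [hA, Finset.mem_filter]
        refine ⟨Finset.mem_univ _, (Finset.mem_filter.1 hZ).2, ?_⟩
        rw [s.sp_iff]; exact h
    have h3 := (Finset.card_le_card h2).trans (Finset.card_insert_le _ _)
    have h4 : ((univ.filter (fun Z => P (Z ::ₘ M))).card : ℝ) ≤ A.card + 1 := by
      exact_mod_cast h3
    have h5 := hcount M
    rw [h1] at h5
    linarith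
  have hsub : (univ.filter (fun v => c v ∈ A)) \ S ⊆ nbr G S := by
    intro v hv
    rw [Finset.mem_sdiff, Finset.mem_filter] at hv
    rw [mem_nbr]
    refine ⟨hv.2, ?_⟩
    rw [hG, Finset.mem_filter, map_insert_val c S v hv.2]
    refine ⟨Finset.mem_univ _, ?_, (Finset.mem_filter.1 hv.1.2).2⟩
    rw [Finset.card_insert_of_notMem hv.2, hS]; omega
  have h1 := (Finset.le_card_sdiff S (univ.filter (fun v => c v ∈ A))).trans
    (Finset.card_le_card hsub)
  rw [card_filter_mem_eq_sum, hS] at h1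
  have h2 : A.card * (n / m) ≤ ∑ Z ∈ A, (univ.filter (fun v => c v = Z)).card := by
    rw [← smul_eq_mul]
    exact Finset.card_nsmul_le_sum _ _ _ (fun Z _ => hc Z)
  have h3 : A.card * (n / m) ≤ (nbr G S).card + r := by omega
  have h4 : (A.card : ℝ) * ((n / m : ℕ) : ℝ) ≤ (nbr G S).card + r := by exact_mod_cast h3
  have h5 : (n : ℝ) / m - 1 ≤ ((n / m : ℕ) : ℝ) := by
    have h6 : n < m * (n / m + 1) := Nat.lt_mul_div_succ n hm0
    have h7 : (n : ℝ) < m * ((n / m : ℕ) + 1) := by exact_mod_cast h6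
    rw [sub_le_iff_le_add, div_le_iff₀ hmR]
    linarith
  have h6 : (A.card : ℝ) ≤ m := by
    exact_mod_cast Finset.card_le_univ A
  have h7 : (A.card : ℝ) * ((n : ℝ) / m - 1) ≤ (A.card : ℝ) * ((n / m : ℕ) : ℝ) :=
    mul_le_mul_of_nonneg_left h5 (Nat.cast_nonneg _)
  have h8 : (ν - 1) * ((n : ℝ) / m) ≤ A.card * ((n : ℝ) / m) :=
    mul_le_mul_of_nonneg_right hAcard (by positivity)
  have h9 : (ν - 1) / (m : ℝ) * n = (ν - 1) * ((n : ℝ) / m) := by ring
  rw [h9]
  nlinarith

/-- upper bound from the exactness theorem -/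
lemma glue_upper {r : ℕ} (hr : 3 ≤ r) {γ : Type} [Fintype γ] [Nonempty γ] {s : SpSys γ}
    {P : Multiset γ → Prop} {m0 x0 x K : ℝ} (h : Good r m0 x0 s P x K) (hx : 0 ≤ x)
    (hK : 0 < K) (hm0 : 1 ≤ m0) (hx0 : x0 ≤ 1) (ε : ℝ) (hε : 0 < ε) (hxK : x / K ≤ ε / 2) :
    ∃ N : ℕ, ∀ n : ℕ, N ≤ n → ∀ G : Finset (Finset (Fin n)),
      (∃ c : Fin n → γ, ∀ e ∈ G, P (e.val.map c)) →
      ∃ S : Finset (Fin n), S.card = r - 1 ∧
        ((nbr G S).card : ℝ) ≤ ((1 - x0) / m0 + ε) * n := by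
  classical
  set m := Fintype.card γ with hm
  have hmpos : 0 < m := Fintype.card_pos
  have hmR : (0 : ℝ) < m := by exact_mod_cast hmpos
  have hrR : (3 : ℝ) ≤ r := by exact_mod_cast hr
  obtain ⟨N1, hN1⟩ := exists_nat_gt ((m * r : ℝ) / (ε / 2))
  refine ⟨max N1 (m * r + 1), fun n hn G hG => ?_⟩
  have hn1 : N1 ≤ n := le_trans (le_max_left _ _) hn
  have hn2 : m * r + 1 ≤ n := le_trans (le_max_right _ _) hn
  have hn1' : (m * r : ℝ) < n * (ε / 2) := by
    rw [div_lt_iff₀ (by linarith)] at hN1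
    have : (N1 : ℝ) ≤ n := by exact_mod_cast hn1
    nlinarith
  have hn2' : (m * r : ℝ) + 1 ≤ n := by exact_mod_cast hn2
  obtain ⟨c, hc⟩ := hG
  by_contra hcon
  push Not at hcon
  obtain ⟨k, hk⟩ : ∃ k : γ → ℕ, ∀ Z, k Z = (univ.filter (fun v => c v = Z)).card :=
    ⟨_, fun _ => rfl⟩
  obtain ⟨big, hbig⟩ : ∃ big : Finset γ, ∀ Z, Z ∈ big ↔ r - 1 ≤ k Z :=
    ⟨univ.filter (fun Z => r - 1 ≤ k Z), fun Z => by simp⟩
  obtain ⟨n', hn'⟩ : ∃ n' : ℝ, n' = ∑ Z ∈ big, (k Z : ℝ) := ⟨_, rfl⟩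
  have hsum : ∑ Z, (k Z : ℝ) = n := by
    have h1 := card_filter_mem_eq_sum c (univ : Finset γ)
    have h2 : (univ.filter (fun v => c v ∈ (univ : Finset γ))) = (univ : Finset (Fin n)) := by
      ext v; simp
    rw [h2, Finset.card_univ, Fintype.card_fin] at h1
    have h3 : ∑ Z, k Z = n := by
      rw [Finset.sum_congr rfl (fun Z _ => hk Z)]
      exact h1.symm
    exact_mod_cast h3
  have hsplit : ∀ B : Finset γ, ∑ Z ∈ B, (k Z : ℝ) ≤ ∑ Z ∈ B, (if Z ∈ big then (k Z : ℝ) else 0)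
      + m * r := by
    intro B
    have h1 : ∀ Z ∈ B, (k Z : ℝ) ≤ (if Z ∈ big then (k Z : ℝ) else 0) + r := by
      intro Z _
      by_cases h2 : Z ∈ big
      · rw [if_pos h2]; linarith
      · rw [if_neg h2]
        have h3 : k Z ≤ r := by
          have : ¬ (r - 1 ≤ k Z) := fun h4 => h2 ((hbig Z).2 h4)
          omega
        have : (k Z : ℝ) ≤ r := by exact_mod_cast h3
        linarith
    refine (Finset.sum_le_sum h1).trans ?_
    rw [Finset.sum_add_distrib, Finset.sum_const, nsmul_eq_mul]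
    have h2 : (B.card : ℝ) ≤ m := by exact_mod_cast Finset.card_le_univ B
    nlinarith
  have hn'n : (n : ℝ) ≤ n' + m * r := by
    have h1 := hsplit univ
    rw [hsum, Finset.sum_ite_mem, Finset.univ_inter, ← hn'] at h1
    exact h1
  have hn'le : n' ≤ n := by
    rw [← hsum, hn']
    exact Finset.sum_le_sum_of_subset_of_nonneg (Finset.subset_univ _)
      (fun _ _ _ => Nat.cast_nonneg _)
  have hn'pos : 0 < n' := by linarith
  obtain ⟨w, hw⟩ : ∃ w : γ → ℝ, ∀ Z, w Z = if Z ∈ big then (k Z : ℝ) / n' else 0 :=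
    ⟨_, fun _ => rfl⟩
  have hw0 : ∀ Z, 0 ≤ w Z := by
    intro Z
    rw [hw]
    by_cases h2 : Z ∈ big
    · rw [if_pos h2]
      exact div_nonneg (Nat.cast_nonneg _) hn'pos.le
    · rw [if_neg h2]
  have hw1 : ∑ Z, w Z = 1 := by
    rw [Finset.sum_congr rfl (fun Z _ => hw Z),
      Finset.sum_ite_mem, Finset.univ_inter, ← Finset.sum_div, ← hn']
    exact div_self hn'pos.ne'
  obtain ⟨t, ht⟩ : ∃ t : ℝ, t = (1 - x0) / m0 := ⟨_, rfl⟩
  rw [← ht] at hcon
  obtain ⟨δ, hδ⟩ : ∃ δ : ℝ, δ = ((t + ε) * n - m * r) / n' := ⟨_, rfl⟩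
  have hdeg : DegOK r P w δ := by
    intro M hM hMw
    have hMbig : ∀ Z ∈ M, Z ∈ big := by
      intro Z hZ
      by_contra h1
      have h2 := hMw Z hZ
      rw [hw, if_neg h1] at h2
      exact lt_irrefl _ h2
    obtain ⟨S, hS⟩ := exists_finset_map c M (by
      intro Z hZ
      rw [hM, ← hk]
      exact (hbig Z).1 (hMbig Z hZ))
    have hScard : S.card = r - 1 := by
      rw [← hM, ← hS, Multiset.card_map]; rfl
    have h1 := hcon S hScard
    have h2 : nbr G S ⊆ univ.filter (fun v => c v ∈ univ.filter (fun Z => P (Z ::ₘ M))) := by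
      intro v hv
      rw [mem_nbr] at hv
      have h3 := hc _ hv.2
      rw [map_insert_val c S v hv.1, hS] at h3
      simp [h3]
    have h3 := Finset.card_le_card h2
    rw [card_filter_mem_eq_sum] at h3
    rw [Finset.sum_congr rfl (fun Z _ => (hk Z).symm)] at h3
    have h4 : ((nbr G S).card : ℝ) ≤ ∑ Z ∈ univ.filter (fun Z => P (Z ::ₘ M)), (k Z : ℝ) := by
      exact_mod_cast h3
    have h5 := hsplit (univ.filter (fun Z => P (Z ::ₘ M)))
    have h6 : ∑ Z ∈ univ.filter (fun Z => P (Z ::ₘ M)), (if Z ∈ big then (k Z : ℝ) else 0)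
        = n' * kept P w M := by
      unfold kept
      rw [Finset.sum_filter, Finset.mul_sum]
      apply Finset.sum_congr rfl
      intro Z _
      rw [hw]
      by_cases h7 : P (Z ::ₘ M)
      · rw [if_pos h7, if_pos h7]
        by_cases h8 : Z ∈ big
        · rw [if_pos h8, if_pos h8, mul_div_cancel₀ _ hn'pos.ne']
        · rw [if_neg h8, if_neg h8, mul_zero]
      · rw [if_neg h7, if_neg h7, mul_zero]
    rw [h6] at h5
    rw [hδ, div_le_iff₀ hn'pos]
    linarith
  have hex := h.exact hx hK w δ hw0 hw1 hdeg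
  have hm0' : 0 < m0 := by linarith
  have h1 : δ ≤ t + ε / 2 := by
    have h2 : m0 * (t + ε / 2) = (1 - x0) + m0 * (ε / 2) := by
      rw [ht, mul_add, mul_div_cancel₀ _ hm0'.ne']
    have h3 : ε / 2 ≤ m0 * (ε / 2) := by nlinarith
    have h4 : m0 * δ ≤ m0 * (t + ε / 2) := by rw [h2]; linarith
    exact le_of_mul_le_mul_left h4 hm0'
  have h2 : 0 ≤ t + ε / 2 := by
    have : 0 ≤ t := by
      rw [ht]
      exact div_nonneg (by linarith) hm0'.le
    linarith
  have h3 : (t + ε) * n - m * r ≤ (t + ε / 2) * n' := by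
    rw [hδ, div_le_iff₀ hn'pos] at h1
    exact h1
  nlinarith

end Pool.Agent.Helper17.Codeg
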