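import Mathlib

/-!
Steiner-type systems `SpSys`: a family of special multisets such that every multiset has a unique
completion by one more element; extension by a cyclic group with a twist.
-/

set_option autoImplicit false
open Finset

namespace Pool.Agent.Helper17.Codeg

structure SpSys (G : Type) where
  Sp : Multiset G → Prop
  star : Multiset G → G
  sp_iff : ∀ Z M, Sp (Z ::ₘ M) ↔ Z = star M

/-- extension of a system by `ZMod q` with twist `a` -/
def SpSys.ext {G : Type} (s : SpSys G) (q : ℕ) (a : Multiset G → ZMod q) :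
    SpSys (G × ZMod q) where
  Sp T := s.Sp (T.map Prod.fst) ∧ (T.map Prod.snd).sum = a (T.map Prod.fst) + 1
  star M := (s.star (M.map Prod.fst),
    a (s.star (M.map Prod.fst) ::ₘ M.map Prod.fst) + 1 - (M.map Prod.snd).sum)
  sp_iff := by
    rintro ⟨Z, z⟩ M
    simp only [Multiset.map_cons, Multiset.sum_cons, s.sp_iff, Prod.mk.injEq]
    constructor
    · rintro ⟨h1, h2⟩
      refine ⟨h1, ?_⟩
      rw [← h1, ← h2]; ring
    · rintro ⟨h1, h2⟩
      refine ⟨h1, ?_⟩
      rw [h2, ← h1]; ring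

/-- the pattern of the extension -/
def extPat {G : Type} (s : SpSys G) (P : Multiset G → Prop) (q : ℕ) (a : Multiset G → ZMod q)
    (T : Multiset (G × ZMod q)) : Prop :=
  P (T.map Prod.fst) ∧ ¬ (s.Sp (T.map Prod.fst) ∧ (T.map Prod.snd).sum = a (T.map Prod.fst))

lemma SpSys.star_star {G : Type} (s : SpSys G) (X Z : G) (N : Multiset G) :
    s.star (s.star (X ::ₘ Z ::ₘ N) ::ₘ Z ::ₘ N) = X := by
  symm
  rw [← s.sp_iff, Multiset.cons_swap, s.sp_iff]

lemma SpSys.star_star' {G : Type} (s : SpSys G) (X : G) (N : Multiset G) :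
    s.star (s.star (X ::ₘ N) ::ₘ N) = X := by
  symm
  rw [← s.sp_iff, Multiset.cons_swap, s.sp_iff]

/-- the key randomness property of a twist -/
def TwistOK (r : ℕ) {G : Type} [Fintype G] (s : SpSys G) (q : ℕ)
    (a : Multiset G → ZMod q) : Prop :=
  ∀ ξ ζ : G → Option (ZMod q),
    20 * (univ.filter (fun X => ξ X = none)).card ≤ Fintype.card G →
    Fintype.card G < 20 * (univ.filter (fun Z => ζ Z ≠ none)).card →
    ∃ (X Y X0 Z : G) (x y x0 z : ZMod q), ξ X = some x ∧ ξ Y = some y ∧ ξ X0 = some x0 ∧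
      ζ Z = some z ∧
      s.Sp (X ::ₘ Y ::ₘ Z ::ₘ Multiset.replicate (r - 3) X0) ∧
      x + y + z + (r - 3) • x0 = a (X ::ₘ Y ::ₘ Z ::ₘ Multiset.replicate (r - 3) X0) + 1

/-- counting lemma: a function hitting prescribed values -/
lemma exists_hit {α D : Type} [Fintype α] [DecidableEq α] [Fintype D] (q : ℕ) [NeZero q]
    (K : ℕ) (T : D → Finset α) (val : D → α → ZMod q) (hT : ∀ d, K ≤ (T d).card)
    (hcount : Fintype.card D * (q - 1) ^ K < q ^ K) :
    ∃ a : α → ZMod q, ∀ d, ∃ t ∈ T d, a t = val d t := by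
  classical
  by_contra hcon
  push Not at hcon
  let B : D → Finset (α → ZMod q) := fun d =>
    Fintype.piFinset (fun t => if t ∈ T d then univ.erase (val d t) else univ)
  have hcard : ∀ d, (B d).card * q ^ K ≤ (q - 1) ^ K * q ^ (Fintype.card α) := by
    intro d
    have h1 : (B d).card = (q - 1) ^ (T d).card * q ^ (Fintype.card α - (T d).card) := by
      simp only [B]
      rw [Fintype.card_piFinset]
      have : ∀ t, (if t ∈ T d then (univ : Finset (ZMod q)).erase (val d t) else univ).card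
          = if t ∈ T d then q - 1 else q := by
        intro t
        split_ifs
        · rw [Finset.card_erase_of_mem (Finset.mem_univ _), Finset.card_univ, ZMod.card]
        · rw [Finset.card_univ, ZMod.card]
      simp only [this]
      rw [Finset.prod_ite, Finset.prod_const, Finset.prod_const]
      have h2 : (univ.filter (fun x => x ∈ T d)) = T d := by ext; simp
      have h3 : (univ.filter (fun x => x ∉ T d)).card = Fintype.card α - (T d).card := by
        rw [← Finset.card_univ, ← Finset.card_sdiff_of_subset (Finset.subset_univ _)]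
        congr 1
        ext; simp
      rw [h2, h3]
    have hle : (T d).card ≤ Fintype.card α := Finset.card_le_univ _
    obtain ⟨e, he⟩ := Nat.exists_eq_add_of_le (hT d)
    have h4 : (q - 1) ^ e ≤ q ^ e := Nat.pow_le_pow_left (Nat.sub_le _ _) _
    rw [h1, he, pow_add]
    have h5 : Fintype.card α = (K + e) + (Fintype.card α - (K + e)) := by omega
    calc (q - 1) ^ K * (q - 1) ^ e * q ^ (Fintype.card α - (K + e)) * q ^ K
        ≤ (q - 1) ^ K * q ^ e * q ^ (Fintype.card α - (K + e)) * q ^ K := by gcongr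
      _ = (q - 1) ^ K * (q ^ (K + e) * q ^ (Fintype.card α - (K + e))) := by
          rw [pow_add]; ring
      _ = (q - 1) ^ K * q ^ (Fintype.card α) := by rw [← pow_add, ← h5]
  have hcov : (univ : Finset (α → ZMod q)) ⊆ univ.biUnion B := by
    intro a _
    obtain ⟨d, hd⟩ := hcon a
    rw [Finset.mem_biUnion]
    refine ⟨d, Finset.mem_univ _, ?_⟩
    simp only [B]
    rw [Fintype.mem_piFinset]
    intro t
    split_ifs with h
    · rw [Finset.mem_erase]; exact ⟨hd t h, Finset.mem_univ _⟩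
    · exact Finset.mem_univ _
  have h1 : q ^ (Fintype.card α) ≤ ∑ d, (B d).card := by
    have := (Finset.card_le_card hcov).trans Finset.card_biUnion_le
    rwa [Finset.card_univ, Fintype.card_fun, ZMod.card] at this
  have h2 : q ^ (Fintype.card α) * q ^ K ≤ Fintype.card D * ((q - 1) ^ K * q ^ (Fintype.card α)) := by
    calc q ^ (Fintype.card α) * q ^ K ≤ (∑ d, (B d).card) * q ^ K := by gcongr
      _ = ∑ d, (B d).card * q ^ K := by rw [Finset.sum_mul]
      _ ≤ ∑ d : D, (q - 1) ^ K * q ^ (Fintype.card α) := Finset.sum_le_sum (fun d _ => hcard d)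
      _ = _ := by rw [Finset.sum_const, Finset.card_univ, smul_eq_mul]
  have hq : 0 < q := Nat.pos_of_ne_zero (NeZero.ne q)
  have h3 : 0 < q ^ (Fintype.card α) := pow_pos hq _
  have h4 : Fintype.card D * ((q - 1) ^ K * q ^ (Fintype.card α))
      < q ^ K * q ^ (Fintype.card α) := by
    rw [← mul_assoc]
    exact Nat.mul_lt_mul_of_pos_right hcount h3
  rw [mul_comm] at h2
  omega

/-- numeric lemma for the counting argument -/
lemma count_numeric (q m K : ℕ) (hq : 1 ≤ q) (hK : q * (2 * q * m + 1) ≤ K) :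
    (q + 1) ^ (2 * m) * (q - 1) ^ K < q ^ K := by
  have h1 : 2 * (q - 1) ^ q ≤ q ^ q := by
    obtain ⟨p, rfl⟩ : ∃ p, q = p + 1 := ⟨q - 1, by omega⟩
    simp only [Nat.add_sub_cancel]
    rcases Nat.eq_zero_or_pos p with h | h
    · subst h; simp
    · have h2 : ((p : ℝ) + 1) ^ (p + 1) = (p : ℝ) ^ (p + 1) * (1 + 1 / p) ^ (p + 1) := by
        rw [← mul_pow]
        congr 1
        field_simp
      have h3 : 1 + ((p + 1 : ℕ) : ℝ) * (1 / p) ≤ (1 + 1 / (p : ℝ)) ^ (p + 1) :=
        one_add_mul_le_pow (by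
          have : (0 : ℝ) ≤ 1 / p := by positivity
          linarith) (p + 1)
      have hp : (0 : ℝ) < p := by exact_mod_cast h
      have h4 : (2 : ℝ) ≤ 1 + ((p + 1 : ℕ) : ℝ) * (1 / p) := by
        push_cast
        have : ((p : ℝ) + 1) * (1 / p) = 1 + 1 / p := by field_simp
        rw [this]
        have : (0 : ℝ) ≤ 1 / p := by positivity
        linarith
      have h5 : 2 * (p : ℝ) ^ (p + 1) ≤ ((p : ℝ) + 1) ^ (p + 1) := by
        rw [h2]
        have : (0 : ℝ) ≤ (p : ℝ) ^ (p + 1) := by positivity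
        nlinarith
      exact_mod_cast h5
  have h2 : q + 1 ≤ 2 ^ q := Nat.lt_two_pow_self
  set L := 2 * q * m + 1 with hL
  -- for K0 = q * L
  have h3 : 2 ^ L * (q - 1) ^ (q * L) ≤ q ^ (q * L) := by
    rw [pow_mul, pow_mul, ← mul_pow]
    exact Nat.pow_le_pow_left h1 L
  have h4 : (q + 1) ^ (2 * m) ≤ 2 ^ (2 * q * m) := by
    calc (q + 1) ^ (2 * m) ≤ (2 ^ q) ^ (2 * m) := Nat.pow_le_pow_left h2 _
      _ = 2 ^ (2 * q * m) := by rw [← pow_mul]; congr 1; ring
  have h5 : 2 * (q + 1) ^ (2 * m) ≤ 2 ^ L := by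
    rw [hL, pow_succ]; omega
  have h6 : 2 * ((q + 1) ^ (2 * m) * (q - 1) ^ (q * L)) ≤ q ^ (q * L) := by
    calc 2 * ((q + 1) ^ (2 * m) * (q - 1) ^ (q * L))
        = (2 * (q + 1) ^ (2 * m)) * (q - 1) ^ (q * L) := by ring
      _ ≤ 2 ^ L * (q - 1) ^ (q * L) := Nat.mul_le_mul_right _ h5
      _ ≤ _ := h3
  have hpos : 0 < q ^ (q * L) := pow_pos hq _
  have h7 : (q + 1) ^ (2 * m) * (q - 1) ^ (q * L) < q ^ (q * L) := by omega
  obtain ⟨e, rfl⟩ := Nat.exists_eq_add_of_le hK
  rw [pow_add, pow_add]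
  have h8 : (q - 1) ^ e ≤ q ^ e := Nat.pow_le_pow_left (Nat.sub_le _ _) _
  calc (q + 1) ^ (2 * m) * ((q - 1) ^ (q * L) * (q - 1) ^ e)
      = ((q + 1) ^ (2 * m) * (q - 1) ^ (q * L)) * (q - 1) ^ e := by ring
    _ ≤ ((q + 1) ^ (2 * m) * (q - 1) ^ (q * L)) * q ^ e := Nat.mul_le_mul_left _ h8
    _ < q ^ (q * L) * q ^ e := Nat.mul_lt_mul_of_pos_right h7 (pow_pos hq _)

end Pool.Agent.Helper17.Codeg
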