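import Pool.Agent.Helper17.Codeg.Exact
import Pool.Agent.Helper17.Codeg.Balanced

/-!
Towers of systems, and the resulting codegree density `(1 - x0)/m0`.
-/

set_option autoImplicit false
open Finset

namespace Pool.Agent.Helper17.Codeg

structure Lev where
  G : Type
  fin : Fintype G
  ne : Nonempty G
  s : SpSys G
  P : Multiset G → Prop

attribute [instance] Lev.fin Lev.ne

@[reducible] noncomputable def Lev.ext (L : Lev) (q : ℕ) [NeZero q]
    (a : Multiset L.G → ZMod q) : Lev where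
  G := L.G × ZMod q
  fin := inferInstance
  ne := inferInstance
  s := L.s.ext q a
  P := extPat L.s L.P q a

open Classical in
noncomputable def twist (r : ℕ) (L : Lev) (q : ℕ) : Multiset L.G → ZMod q :=
  if h : ∃ a, TwistOK r L.s q a then h.choose else fun _ => 0

lemma twist_ok {r : ℕ} (hr : 3 ≤ r) (L : Lev) (q : ℕ) [NeZero q]
    (h : 1000 * q ^ 2 ≤ Fintype.card L.G) : TwistOK r L.s q (twist r L q) := by
  classical
  have hex := exists_twist hr L.s q h
  unfold twist
  rw [dif_pos hex]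
  exact hex.choose_spec

noncomputable def tower (r : ℕ) (L0 : Lev) (q : ℕ → ℕ) [∀ l, NeZero (q l)] : ℕ → Lev
  | 0 => L0
  | l + 1 => (tower r L0 q l).ext (q l) (twist r (tower r L0 q l) (q l))

/-- numerical data of a tower -/
structure TowerData (m0 : ℕ) (x0 : ℝ) (q : ℕ → ℕ) (x : ℕ → ℝ) : Prop where
  x_zero : x 0 = x0
  q_ge : ∀ l, 200 ≤ q l
  hrec : ∀ l, x l * q l = 1 + x (l + 1)
  nonneg : ∀ l, 0 ≤ x l
  le : ∀ l, x l ≤ 1 / 200
  big : ∀ l, 1000 * (q l) ^ 2 ≤ m0 * ∏ i ∈ range l, q i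

variable {r : ℕ} {L0 : Lev} {q : ℕ → ℕ} [∀ l, NeZero (q l)] {x0 : ℝ} {x : ℕ → ℝ}

lemma tower_card (l : ℕ) :
    Fintype.card (tower r L0 q l).G = Fintype.card L0.G * ∏ i ∈ range l, q i := by
  induction l with
  | zero =>
    rw [Finset.prod_range_zero, mul_one]
    rfl
  | succ l ih =>
    rw [Finset.prod_range_succ, ← mul_assoc, ← ih]
    show Fintype.card ((tower r L0 q l).G × ZMod (q l)) = _
    rw [Fintype.card_prod, ZMod.card]

lemma tower_good (hr : 3 ≤ r) (hP : L0.P = L0.s.Sp) (hfull : Full r L0.s)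
    (hd : TowerData (Fintype.card L0.G) x0 q x) (l : ℕ) :
    Good r (Fintype.card L0.G) x0 (tower r L0 q l).s (tower r L0 q l).P (x l)
      (∏ i ∈ range l, (q i : ℝ)) := by
  induction l with
  | zero =>
    rw [Finset.prod_range_zero, hd.x_zero]
    show Good r (Fintype.card L0.G) x0 L0.s L0.P x0 1
    rw [hP]
    apply Good.base hr hfull
    have := hd.le 0
    rw [hd.x_zero] at this
    linarith
  | succ l ih =>
    rw [Finset.prod_range_succ]
    have hx0 : x0 ≤ 1 / 200 := by rw [← hd.x_zero]; exact hd.le 0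
    exact Good.step hr ih (hd.q_ge l)
      (twist_ok hr (tower r L0 q l) (q l) (by rw [tower_card]; exact hd.big l))
      (hd.hrec l) (hd.nonneg (l + 1)) (hd.le (l + 1)) (hd.le l) hx0

lemma tower_count (hr : 3 ≤ r) (hP : L0.P = L0.s.Sp) (hfull : Full r L0.s)
    (hd : TowerData (Fintype.card L0.G) x0 q x) (l : ℕ) :
    ∀ M, kept (tower r L0 q l).P (fun _ => 1) M
      = (1 - x0) * (∏ i ∈ range l, (q i : ℝ)) + x l := by
  classical
  induction l with
  | zero =>
    intro M
    rw [Finset.prod_range_zero, hd.x_zero]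
    show kept L0.P (fun _ => 1) M = _
    rw [hP]
    unfold kept
    simp only [L0.s.sp_iff]
    rw [Finset.sum_ite_eq']
    simp
  | succ l ih =>
    intro M
    have h1 := kept_ext (tower r L0 q l).s (tower r L0 q l).P
      (tower_good hr hP hfull hd l).sp_P (q l) (twist r (tower r L0 q l) (q l))
      (fun _ => 1) M
    have h2 : kept (tower r L0 q l).P
        (marg (fun _ : (tower r L0 q l).G × ZMod (q l) => (1 : ℝ))) (M.map Prod.fst)
        = q l * kept (tower r L0 q l).P (fun _ => 1) (M.map Prod.fst) := by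
      unfold kept marg
      rw [Finset.mul_sum]
      apply Finset.sum_congr rfl
      intro Z _
      split_ifs
      · rw [Finset.sum_const, Finset.card_univ, ZMod.card, nsmul_eq_mul]
      · rw [mul_zero]
    rw [h2, ih] at h1
    have h3 : kept (tower r L0 q (l + 1)).P (fun _ => 1) M =
      q l * ((1 - x0) * (∏ i ∈ range l, (q i : ℝ)) + x l) - 1 := h1
    rw [h3, Finset.prod_range_succ]
    have h4 := hd.hrec l
    linear_combination h4

/-- the class attached to the tower -/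
def TowC (L : ℕ → Lev) (n : ℕ) (G : Finset (Finset (Fin n))) : Prop :=
  ∀ l, ∃ c : Fin n → (L l).G, ∀ e ∈ G, (L l).P (e.val.map c)

lemma towC_hered (L : ℕ → Lev) : Hered (TowC L) := by
  intro m n H G f hG hH l
  obtain ⟨c, hc⟩ := hG l
  refine ⟨fun v => c (f v), fun e he => ?_⟩
  have := hc _ (hH e he)
  rwa [Finset.map_val, Multiset.map_map] at this

lemma ext_down {n : ℕ} {γ : Type} (s : SpSys γ) (P : Multiset γ → Prop) (b : ℕ)
    (a : Multiset γ → ZMod b) (G : Finset (Finset (Fin n)))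
    (h : ∃ c : Fin n → γ × ZMod b, ∀ e ∈ G, extPat s P b a (e.val.map c)) :
    ∃ c : Fin n → γ, ∀ e ∈ G, P (e.val.map c) := by
  obtain ⟨c, hc⟩ := h
  refine ⟨fun v => (c v).1, fun e he => ?_⟩
  have h1 := (hc e he).1
  rwa [Multiset.map_map] at h1

lemma ext_up {n : ℕ} {γ : Type} (s : SpSys γ) (P : Multiset γ → Prop) (b : ℕ)
    (a : Multiset γ → ZMod b) (G : Finset (Finset (Fin n)))
    (h : ∃ c : Fin n → γ, ∀ e ∈ G, P (e.val.map c) ∧ ¬ s.Sp (e.val.map c)) :
    ∃ c : Fin n → γ × ZMod b, ∀ e ∈ G,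
      extPat s P b a (e.val.map c) ∧ ¬ (s.ext b a).Sp (e.val.map c) := by
  obtain ⟨c, hc⟩ := h
  refine ⟨fun v => (c v, 0), fun e he => ?_⟩
  have h1 : (e.val.map (fun v => ((c v, 0) : γ × ZMod b))).map Prod.fst = e.val.map c := by
    rw [Multiset.map_map]; rfl
  obtain ⟨h2, h3⟩ := hc e he
  constructor
  · refine ⟨?_, fun h4 => ?_⟩
    · rw [h1]; exact h2
    · rw [h1] at h4; exact h3 h4.1
  · intro h4
    have h5 : s.Sp ((e.val.map (fun v => ((c v, 0) : γ × ZMod b))).map Prod.fst) := h4.1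
    rw [h1] at h5
    exact h3 h5

lemma tower_down {n : ℕ} (G : Finset (Finset (Fin n))) (l : ℕ)
    (h : ∃ c : Fin n → (tower r L0 q (l + 1)).G, ∀ e ∈ G,
      (tower r L0 q (l + 1)).P (e.val.map c)) :
    ∃ c : Fin n → (tower r L0 q l).G, ∀ e ∈ G, (tower r L0 q l).P (e.val.map c) :=
  ext_down (tower r L0 q l).s (tower r L0 q l).P (q l) (twist r (tower r L0 q l) (q l)) G h

lemma tower_up {n : ℕ} (G : Finset (Finset (Fin n))) (l : ℕ)
    (h : ∃ c : Fin n → (tower r L0 q l).G, ∀ e ∈ G,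
      (tower r L0 q l).P (e.val.map c) ∧ ¬ (tower r L0 q l).s.Sp (e.val.map c)) :
    ∃ c : Fin n → (tower r L0 q (l + 1)).G, ∀ e ∈ G,
      (tower r L0 q (l + 1)).P (e.val.map c) ∧ ¬ (tower r L0 q (l + 1)).s.Sp (e.val.map c) :=
  ext_up (tower r L0 q l).s (tower r L0 q l).P (q l) (twist r (tower r L0 q l) (q l)) G h

lemma tower_class {n : ℕ} (G : Finset (Finset (Fin n))) (l : ℕ)
    (h : ∃ c : Fin n → (tower r L0 q l).G, ∀ e ∈ G,
      (tower r L0 q l).P (e.val.map c) ∧ ¬ (tower r L0 q l).s.Sp (e.val.map c)) :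
    TowC (tower r L0 q) n G := by
  have hup : ∀ d, ∃ c : Fin n → (tower r L0 q (l + d)).G, ∀ e ∈ G,
      (tower r L0 q (l + d)).P (e.val.map c) ∧
      ¬ (tower r L0 q (l + d)).s.Sp (e.val.map c) := by
    intro d
    induction d with
    | zero => exact h
    | succ d ih => exact tower_up G (l + d) ih
  have hdown : ∀ d l', (∃ c : Fin n → (tower r L0 q (l' + d)).G, ∀ e ∈ G,
      (tower r L0 q (l' + d)).P (e.val.map c)) →
      ∃ c : Fin n → (tower r L0 q l').G, ∀ e ∈ G, (tower r L0 q l').P (e.val.map c) := by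
    intro d
    induction d with
    | zero => intro l' h'; exact h'
    | succ d ih =>
      intro l' h'
      exact ih l' (tower_down G (l' + d) h')
  intro l'
  apply hdown l l'
  obtain ⟨c, hc⟩ := hup l'
  rw [add_comm l' l]
  exact ⟨c, fun e he => (hc e he).1⟩

end Pool.Agent.Helper17.Codeg
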