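import Pool.Agent.Helper17.Codeg.Sys

/-!
Existence of twists with property `TwistOK` on large systems, by counting.
-/

set_option autoImplicit false
open Finset

namespace Pool.Agent.Helper17.Codeg

lemma twist_numeric (q m n z Q T : ℕ) (hq : 1 ≤ q) (hm : 1000 * q ^ 2 ≤ m)
    (hn : 20 * n ≤ m) (hz : m < 20 * z) (hQ : z * (m - 2 * n) ≤ Q) (hT : Q ≤ 16 * T) :
    q * (2 * q * m + 1) ≤ T := by
  obtain ⟨e, he⟩ : ∃ e, m = 2 * n + e := ⟨m - 2 * n, by omega⟩
  have he' : m - 2 * n = e := by omega
  rw [he'] at hQ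
  have h1 : 9 * m ≤ 10 * e := by omega
  have h2 : m * (9 * m) ≤ (20 * z) * (10 * e) := Nat.mul_le_mul hz.le h1
  have h3 : 9 * m * m ≤ 3200 * T := by nlinarith
  have h4 : 9000 * q ^ 2 * m ≤ 9 * m * m := by nlinarith
  have h5 : 1 ≤ m := by nlinarith
  have h6 : q ≤ q ^ 2 * m := by nlinarith
  nlinarith

theorem exists_twist {r : ℕ} (hr : 3 ≤ r) {G : Type} [Fintype G] (s : SpSys G) (q : ℕ)
    [NeZero q] (hm : 1000 * q ^ 2 ≤ Fintype.card G) : ∃ a, TwistOK r s q a := by
  classical
  have hq : 1 ≤ q := Nat.one_le_iff_ne_zero.2 (NeZero.ne q)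
  set m := Fintype.card G with hmdef
  let D := {p : (G → Option (ZMod q)) × (G → Option (ZMod q)) //
    20 * (univ.filter (fun X => p.1 X = none)).card ≤ m ∧
    m < 20 * (univ.filter (fun Z => p.2 Z ≠ none)).card}
  have hm1 : 1 ≤ m := by nlinarith
  have hX0 : ∀ d : D, ∃ X0 : G, ∃ x0, d.1.1 X0 = some x0 := by
    intro d
    by_contra hcon
    push Not at hcon
    have h1 : (univ.filter (fun X => d.1.1 X = none)) = univ := by
      ext X
      simp only [mem_filter, mem_univ, true_and, iff_true]
      exact Option.eq_none_iff_forall_ne_some.2 (fun a h => hcon X a h)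
    have h2 := d.2.1
    rw [h1, Finset.card_univ, ← hmdef] at h2
    omega
  choose X0 x0 hX0 using hX0
  let R : D → Multiset G := fun d => Multiset.replicate (r - 3) (X0 d)
  let σ : D → G → G → G := fun d Z X => s.star (X ::ₘ Z ::ₘ R d)
  have hσ : ∀ d Z X, σ d Z (σ d Z X) = X := fun d Z X => s.star_star X Z (R d)
  let Q : (d : D) → Finset (Σ _ : G, G) := fun d =>
    (univ.filter (fun Z => d.1.2 Z ≠ none)).sigma
      (fun Z => univ.filter (fun X => d.1.1 X ≠ none ∧ d.1.1 (σ d Z X) ≠ none))
  let Tm : (d : D) → (Σ _ : G, G) → Sym G r := fun d p =>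
    Sym.mk (p.2 ::ₘ σ d p.1 p.2 ::ₘ p.1 ::ₘ R d) (by
      simp only [R, Multiset.card_cons, Multiset.card_replicate]; omega)
  let value : (d : D) → (Σ _ : G, G) → ZMod q := fun d p =>
    (d.1.1 p.2).getD 0 + (d.1.1 (σ d p.1 p.2)).getD 0 + (d.1.2 p.1).getD 0
      + (r - 3) • x0 d - 1
  let val : (d : D) → Sym G r → ZMod q := fun d t =>
    if h : ∃ p ∈ Q d, Tm d p = t then value d h.choose else 0
  have hTcard : ∀ d : D, q * (2 * q * m + 1) ≤ ((Q d).image (Tm d)).card := by
    intro d
    have hQcard : (univ.filter (fun Z => d.1.2 Z ≠ none)).card *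
        (m - 2 * (univ.filter (fun X => d.1.1 X = none)).card) ≤ (Q d).card := by
      simp only [Q]
      rw [Finset.card_sigma, ← smul_eq_mul]
      apply Finset.card_nsmul_le_sum
      intro Z _
      have h1 : (univ : Finset G) ⊆
          (univ.filter (fun X => d.1.1 X ≠ none ∧ d.1.1 (σ d Z X) ≠ none)) ∪
          ((univ.filter (fun X => d.1.1 X = none)) ∪
           (univ.filter (fun X => d.1.1 (σ d Z X) = none))) := by
        intro X _
        simp only [mem_union, mem_filter, mem_univ, true_and]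
        tauto
      have h2 := Finset.card_le_card h1
      have h3 := Finset.card_union_le
        (univ.filter (fun X => d.1.1 X ≠ none ∧ d.1.1 (σ d Z X) ≠ none))
        ((univ.filter (fun X => d.1.1 X = none)) ∪
           (univ.filter (fun X => d.1.1 (σ d Z X) = none)))
      have h4 := Finset.card_union_le (univ.filter (fun X => d.1.1 X = none))
           (univ.filter (fun X => d.1.1 (σ d Z X) = none))
      have h5 : (univ.filter (fun X => d.1.1 (σ d Z X) = none)).card ≤
          (univ.filter (fun X => d.1.1 X = none)).card := by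
        apply Finset.card_le_card_of_injOn (σ d Z)
        · intro X hX
          simpa using hX
        · intro X _ Y _ hXY
          rw [← hσ d Z X, ← hσ d Z Y, hXY]
      rw [Finset.card_univ, ← hmdef] at h2
      omega
    have hfib : (Q d).card ≤ 16 * ((Q d).image (Tm d)).card := by
      apply Finset.card_le_mul_card_image
      intro t ht
      obtain ⟨p1, _, rfl⟩ := Finset.mem_image.1 ht
      let F4 : Finset G := {p1.2, σ d p1.1 p1.2, p1.1, X0 d}
      have hF4 : ∀ X, X ∈ (Tm d p1).1 → X ∈ F4 := by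
        intro X hX
        simp only [Tm, R, Multiset.mem_cons, Multiset.mem_replicate] at hX
        simp only [F4, Finset.mem_insert, Finset.mem_singleton]
        tauto
      have hsub : ((Q d).filter (fun x => Tm d x = Tm d p1)).card ≤ (F4 ×ˢ F4).card := by
        apply Finset.card_le_card_of_injOn (fun p => (p.1, p.2))
        · intro p hp
          rw [Finset.mem_coe, Finset.mem_filter] at hp
          rw [Finset.mem_coe, Finset.mem_product]
          constructor
          · apply hF4
            rw [← hp.2]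
            simp [Tm]
          · apply hF4
            rw [← hp.2]
            simp [Tm]
        · rintro ⟨a, b⟩ _ ⟨a', b'⟩ _ h
          simp only [Prod.mk.injEq] at h
          rw [h.1, h.2]
      refine le_trans hsub ?_
      rw [Finset.card_product]
      have : F4.card ≤ 4 := Finset.card_le_four
      nlinarith
    exact twist_numeric q m _ _ _ _ hq hm d.2.1 d.2.2 hQcard hfib
  have hDcard : Fintype.card D ≤ (q + 1) ^ (2 * m) := by
    have h1 := Fintype.card_subtype_le (fun p : (G → Option (ZMod q)) × (G → Option (ZMod q)) =>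
      20 * (univ.filter (fun X => p.1 X = none)).card ≤ m ∧
      m < 20 * (univ.filter (fun Z => p.2 Z ≠ none)).card)
    refine le_trans h1 (le_of_eq ?_)
    rw [Fintype.card_prod, Fintype.card_fun, Fintype.card_option, ZMod.card, two_mul, pow_add]
  obtain ⟨a', ha'⟩ := exists_hit (α := Sym G r) (D := D) q (q * (2 * q * m + 1))
    (fun d => (Q d).image (Tm d)) val hTcard
    (lt_of_le_of_lt (Nat.mul_le_mul_right _ hDcard) (count_numeric q m _ hq le_rfl))
  let a : Multiset G → ZMod q := fun T => if h : T.card = r then a' (Sym.mk T h) else 0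
  have haT : ∀ (T : Multiset G) (h : T.card = r), a T = a' (Sym.mk T h) := by
    intro T h
    simp only [a]
    rw [dif_pos h]
  refine ⟨a, ?_⟩
  intro ξ ζ hξ hζ
  let d : D := ⟨(ξ, ζ), hξ, hζ⟩
  obtain ⟨t, ht, hat⟩ := ha' d
  have hex : ∃ p ∈ Q d, Tm d p = t := by
    obtain ⟨p, hp, hpt⟩ := Finset.mem_image.1 ht
    exact ⟨p, hp, hpt⟩
  have hval : val d t = value d hex.choose := by
    simp only [val]
    rw [dif_pos hex]
  obtain ⟨hp1, hp2⟩ := hex.choose_spec
  set p := hex.choose with hp
  have hp1' := Finset.mem_sigma.1 hp1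
  simp only [mem_filter, mem_univ, true_and] at hp1'
  obtain ⟨hz1, hx1, hy1⟩ := hp1'
  obtain ⟨z, hz⟩ := Option.ne_none_iff_exists'.1 hz1
  obtain ⟨x, hx⟩ := Option.ne_none_iff_exists'.1 hx1
  obtain ⟨y, hy⟩ := Option.ne_none_iff_exists'.1 hy1
  refine ⟨p.2, σ d p.1 p.2, X0 d, p.1, x, y, x0 d, z, hx, hy, hX0 d, hz, ?_, ?_⟩
  · rw [Multiset.cons_swap, s.sp_iff]
  · have hc : (p.2 ::ₘ σ d p.1 p.2 ::ₘ p.1 ::ₘ Multiset.replicate (r - 3) (X0 d)).card = r :=
      (Tm d p).2
    rw [haT _ hc]
    have h1 : a' (Sym.mk (p.2 ::ₘ σ d p.1 p.2 ::ₘ p.1 ::ₘ Multiset.replicate (r - 3) (X0 d)) hc)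
        = value d p := by
      rw [← hval, ← hat, ← hp2]
    rw [h1]
    simp only [value, hx, hy, hz, Option.getD_some]
    ring

end Pool.Agent.Helper17.Codeg
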